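import Mathlib

set_option autoImplicit false

namespace Pool.Agent.Helper70.Cr

variable {V : Type*}

/-- `l` lists the vertices of a path of `R` inside `W`, in order. -/
def PathIn (R : SimpleGraph V) (W : Finset V) (l : List V) : Prop :=
  l.IsChain R.Adj ∧ l.Nodup ∧ ∀ x ∈ l, x ∈ W

/-- `R` is connected on `W`, stated with cuts. -/
def ConnOn (R : SimpleGraph V) (W : Finset V) : Prop :=
  ∀ S ⊆ W, S.Nonempty → S ≠ W → ∃ a ∈ S, ∃ b ∈ W, b ∉ S ∧ R.Adj a b

/-- The complement of `R` has a cycle of length `n` inside `W`. -/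
def CycIn (R : SimpleGraph V) (W : Finset V) (n : ℕ) : Prop :=
  ∃ l : List V, l.length = n ∧ l.Nodup ∧ (∀ x ∈ l, x ∈ W) ∧ l.IsChain Rᶜ.Adj ∧
    ∀ a ∈ l.head?, ∀ b ∈ l.getLast?, Rᶜ.Adj b a

/-- All paths of `R` inside `W` have at most `p` vertices. -/
def Bdd (R : SimpleGraph V) (W : Finset V) (p : ℕ) : Prop :=
  ∀ l, PathIn R W l → l.length ≤ p

variable {R : SimpleGraph V} {W : Finset V}

theorem PathIn.reverse {l : List V} (h : PathIn R W l) : PathIn R W l.reverse := by
  refine ⟨?_, List.nodup_reverse.2 h.2.1, fun x hx => h.2.2 x (List.mem_reverse.1 hx)⟩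
  rw [List.isChain_reverse]
  exact h.1.imp fun a b hab => hab.symm

/-- insertion of a vertex between two consecutive ones -/
theorem insert_one {A C : List V} {u : V} (hP : PathIn R W (A ++ C)) (hu : u ∉ A ++ C)
    (huW : u ∈ W) (hA : ∀ x ∈ A.getLast?, R.Adj x u) (hC : ∀ y ∈ C.head?, R.Adj u y) :
    PathIn R W (A ++ u :: C) := by
  obtain ⟨h1, h2, h3⟩ := hP
  rw [List.isChain_append] at h1
  rw [List.nodup_append] at h2
  simp only [List.mem_append, not_or] at hu
  refine ⟨?_, ?_, ?_⟩
  · rw [List.isChain_append, List.isChain_cons]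
    exact ⟨h1.1, ⟨hC, h1.2.1⟩, by simpa using hA⟩
  · rw [List.nodup_append]
    refine ⟨h2.1, List.nodup_cons.2 ⟨hu.2, h2.2.1⟩, ?_⟩
    intro a ha b hb
    rcases List.mem_cons.1 hb with rfl | hb
    · rintro rfl
      exact hu.1 ha
    · exact h2.2.2 a ha b hb
  · intro x hx
    simp only [List.mem_append, List.mem_cons] at hx
    rcases hx with hx | rfl | hx
    · exact h3 x (by simp [hx])
    · exact huW
    · exact h3 x (by simp [hx])

/-- insertion of two adjacent vertices -/
theorem insert_two {A C : List V} {u w : V} (hP : PathIn R W (A ++ C)) (hu : u ∉ A ++ C)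
    (hw : w ∉ A ++ C) (huw : R.Adj u w)
    (huW : u ∈ W) (hwW : w ∈ W) (hA : ∀ x ∈ A.getLast?, R.Adj x u)
    (hC : ∀ y ∈ C.head?, R.Adj w y) :
    PathIn R W (A ++ u :: w :: C) := by
  obtain ⟨h1, h2, h3⟩ := hP
  rw [List.isChain_append] at h1
  rw [List.nodup_append] at h2
  simp only [List.mem_append, not_or] at hu hw
  have hne := huw.ne
  refine ⟨?_, ?_, ?_⟩
  · rw [List.isChain_append, List.isChain_cons, List.isChain_cons]
    exact ⟨h1.1, ⟨by simpa using huw, hC, h1.2.1⟩, by simpa using hA⟩
  · rw [List.nodup_append]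
    refine ⟨h2.1, ?_, ?_⟩
    · simp [hu.2, hw.2, hne, h2.2.1]
    intro a ha b hb
    rcases List.mem_cons.1 hb with rfl | hb
    · rintro rfl
      exact hu.1 ha
    rcases List.mem_cons.1 hb with rfl | hb
    · rintro rfl
      exact hw.1 ha
    · exact h2.2.2 a ha b hb
  · intro x hx
    simp only [List.mem_append, List.mem_cons] at hx
    rcases hx with hx | rfl | rfl | hx
    · exact h3 x (by simp [hx])
    · exact huW
    · exact hwW
    · exact h3 x (by simp [hx])

/-- rotation: reversing an initial piece -/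
theorem rev_head {A C : List V} {z : V} (hP : PathIn R W (A ++ C)) (hz : z ∉ A ++ C)
    (hzW : z ∈ W) (hA : ∀ x ∈ A.getLast?, R.Adj z x) (hAne : A ≠ [])
    (hC : ∀ x ∈ A.head?, ∀ y ∈ C.head?, R.Adj x y) :
    PathIn R W (z :: (A.reverse ++ C)) := by
  obtain ⟨h1, h2, h3⟩ := hP
  rw [List.isChain_append] at h1
  rw [List.nodup_append] at h2
  simp only [List.mem_append, not_or] at hz
  refine ⟨?_, ?_, ?_⟩
  · rw [List.isChain_cons, List.isChain_append, List.isChain_reverse]
    refine ⟨?_, h1.1.imp fun a b h => h.symm, h1.2.1, ?_⟩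
    · intro y hy
      rw [List.head?_append_of_ne_nil _ (by simpa using hAne), List.head?_reverse] at hy
      exact hA y hy
    · intro x hx y hy
      rw [List.getLast?_reverse] at hx
      exact hC x hx y hy
  · rw [List.nodup_cons, List.nodup_append]
    refine ⟨by simp [hz.1, hz.2], List.nodup_reverse.2 h2.1, h2.2.1, ?_⟩
    intro a ha b hb
    exact h2.2.2 a (List.mem_reverse.1 ha) b hb
  · intro x hx
    simp only [List.mem_append, List.mem_cons, List.mem_reverse] at hx
    rcases hx with rfl | hx | hx
    · exact hzW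
    · exact h3 x (by simp [hx])
    · exact h3 x (by simp [hx])

/-- the double insertion -/
theorem insert_cross {A M C : List V} {u w : V} (hP : PathIn R W (A ++ M ++ C))
    (hu : u ∉ A ++ M ++ C) (hw : w ∉ A ++ M ++ C) (huw : u ≠ w)
    (huW : u ∈ W) (hwW : w ∈ W) (hM : M ≠ [])
    (hA : ∀ x ∈ A.getLast?, R.Adj x u)
    (hM1 : ∀ x ∈ M.getLast?, R.Adj u x)
    (hM2 : ∀ x ∈ M.head?, R.Adj x w)
    (hC : ∀ y ∈ C.head?, R.Adj w y) :
    PathIn R W (A ++ u :: (M.reverse ++ w :: C)) := by
  obtain ⟨h1, h2, h3⟩ := hP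
  rw [List.isChain_append, List.isChain_append] at h1
  rw [List.nodup_append, List.nodup_append] at h2
  simp only [List.mem_append, not_or] at hu hw
  refine ⟨?_, ?_, ?_⟩
  · rw [List.isChain_append, List.isChain_cons, List.isChain_append, List.isChain_cons,
      List.isChain_reverse]
    refine ⟨h1.1.1, ⟨?_, h1.1.2.1.imp fun a b h => h.symm, ⟨hC, h1.2.1⟩, ?_⟩, by simpa using hA⟩
    · intro y hy
      rw [List.head?_append_of_ne_nil _ (by simpa using hM), List.head?_reverse] at hy
      exact hM1 y hy
    · intro x hx y hy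
      rw [List.getLast?_reverse] at hx
      simp only [List.head?_cons, Option.mem_def, Option.some.injEq] at hy
      subst hy
      exact hM2 x hx
  · rw [List.nodup_append, List.nodup_cons, List.nodup_append, List.nodup_cons]
    refine ⟨h2.1.1, ⟨by simp [hu.1.2, hu.2, huw], List.nodup_reverse.2 h2.1.2.1,
      ⟨hw.2, h2.2.1⟩, ?_⟩, ?_⟩
    · intro a ha b hb
      rcases List.mem_cons.1 hb with rfl | hb
      · rintro rfl
        exact hw.1.2 (List.mem_reverse.1 ha)
      · exact h2.2.2 a (by simp [List.mem_reverse.1 ha]) b hb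
    · intro a ha b hb
      simp only [List.mem_cons, List.mem_append, List.mem_reverse] at hb
      rcases hb with rfl | hb | rfl | hb
      · rintro rfl
        exact hu.1.1 ha
      · exact h2.1.2.2 a ha b hb
      · rintro rfl
        exact hw.1.1 ha
      · exact h2.2.2 a (by simp [ha]) b hb
  · intro x hx
    simp only [List.mem_append, List.mem_cons, List.mem_reverse] at hx
    rcases hx with hx | rfl | hx | rfl | hx
    · exact h3 x (by simp [hx])
    · exact huW
    · exact h3 x (by simp [hx])
    · exact hwW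
    · exact h3 x (by simp [hx])

/-- A longest path that misses a vertex of a connected `W` cannot be closed up to a cycle. -/
theorem closed_false [DecidableEq V] {P : List V} {p : ℕ} (hconn : ConnOn R W)
    (hP : PathIn R W P) (hp : P.length = p) (hb : Bdd R W p) (hp1 : 1 ≤ p) (hlt : p < W.card)
    (hcl : ∀ a ∈ P.head?, ∀ b ∈ P.getLast?, a = b ∨ R.Adj b a) : False := by
  have hS : P.toFinset ⊆ W := fun x hx => hP.2.2 x (List.mem_toFinset.1 hx)
  have hcard : P.toFinset.card = p := by
    rw [List.toFinset_card_of_nodup hP.2.1, hp]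
  have hne : P.toFinset.Nonempty := by
    rw [← Finset.card_pos, hcard]; exact hp1
  have hneW : P.toFinset ≠ W := by
    intro h
    rw [h] at hcard
    omega
  obtain ⟨a, ha, b, hbW, hbS, hab⟩ := hconn _ hS hne hneW
  rw [List.mem_toFinset] at ha hbS
  obtain ⟨A, C, rfl⟩ := List.append_of_mem ha
  have key : PathIn R W (b :: a :: (C ++ A)) := by
    obtain ⟨h1, h2, h3⟩ := hP
    rw [List.isChain_append] at h1
    refine ⟨?_, ?_, ?_⟩
    · rw [List.isChain_cons]
      refine ⟨by simpa using hab.symm, ?_⟩
      rw [← List.cons_append, List.isChain_append]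
      refine ⟨h1.2.1, h1.1, ?_⟩
      intro x hx y hy
      have hA : A ≠ [] := by
        rintro rfl
        simp at hy
      have h4 := hcl y (by
        rw [List.head?_append_of_ne_nil _ hA]; exact hy) x (by
        rw [List.getLast?_append_of_ne_nil _ (by simp)]; exact hx)
      rcases h4 with rfl | h4
      · exfalso
        rw [List.nodup_append] at h2
        exact h2.2.2 y (List.mem_of_mem_head? hy) y (List.mem_of_mem_getLast? hx) rfl
      · exact h4
    · rw [List.nodup_cons]
      refine ⟨?_, ?_⟩
      · intro hx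
        apply hbS
        simp only [List.mem_cons, List.mem_append] at hx ⊢
        tauto
      · rw [← List.cons_append]
        exact (List.nodup_append_comm).1 h2
    · intro x hx
      simp only [List.mem_cons, List.mem_append] at hx
      rcases hx with rfl | rfl | hx | hx
      · exact hbW
      · exact h3 _ (by simp)
      · exact h3 _ (by simp [hx])
      · exact h3 _ (by simp [hx])
  have h5 := hb _ key
  simp only [List.length_append, List.length_cons] at h5 hp
  omega

end Pool.Agent.Helper70.Cr
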