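import Pool.Agent.Helper70.Cr.Upper

set_option autoImplicit false
set_option linter.unusedSectionVars false

open Classical SimpleGraph

namespace Pool.Agent.Helper70.Cr

variable {V : Type*}

theorem contains_path {R : SimpleGraph V} {W : Finset V} {l : List V} (h : PathIn R W l)
    {m : ℕ} (hm : m ≤ l.length) : (pathGraph m).IsContained R := by
  have hadj : ∀ i (hi : i + 1 < l.length), R.Adj l[i] l[i + 1] := fun i hi => h.1.getElem i hi
  refine ⟨⟨⟨fun i : Fin m => l[i.val]'(by omega), ?_⟩, ?_⟩⟩
  · intro a b hab
    rw [pathGraph_adj] at hab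
    rcases hab with hab | hab
    · have := hadj a.val (by omega)
      simp only [hab] at this
      exact this
    · have := hadj b.val (by omega)
      simp only [hab] at this
      exact this.symm
  · intro a b hab
    have := (List.Nodup.getElem_inj_iff h.2.1).1 hab
    exact Fin.ext this

theorem bdd_of_not_contains {R : SimpleGraph V} {W : Finset V} {m : ℕ}
    (h : ¬ (pathGraph m).IsContained R) : Bdd R W (m - 1) := by
  intro l hl
  by_contra hcon
  exact h (contains_path hl (by omega))

theorem fin_sub_one {n : ℕ} (hn : 3 ≤ n) {u v : Fin n} (h : (u - v).val = 1) :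
    u.val = v.val + 1 ∨ (u.val = 0 ∧ v.val = n - 1) := by
  rw [Fin.sub_def] at h
  simp only at h
  have hu := u.isLt
  have hv := v.isLt
  by_cases hc : n - v.val + u.val < n
  · rw [Nat.mod_eq_of_lt hc] at h
    omega
  · rw [Nat.mod_eq_sub_mod (by omega), Nat.mod_eq_of_lt (by omega)] at h
    omega

theorem contains_cycle {R : SimpleGraph V} {W : Finset V} {n : ℕ} (hn : 3 ≤ n)
    (h : CycIn R W n) : (cycleGraph n).IsContained Rᶜ := by
  obtain ⟨l, hl, hnd, -, hch, hcl⟩ := h
  have hadj : ∀ i (hi : i + 1 < l.length), Rᶜ.Adj l[i] l[i + 1] := fun i hi => hch.getElem i hi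
  have hadj' : Rᶜ.Adj (l[n - 1]'(by omega)) (l[0]'(by omega)) := by
    apply hcl
    · rw [List.head?_eq_getElem?, List.getElem?_eq_getElem (by omega)]
      rfl
    · rw [List.getLast?_eq_getElem?, List.getElem?_eq_getElem (by omega)]
      simp only [hl]
      rfl
  have key : ∀ u v : Fin n, (u - v).val = 1 →
      Rᶜ.Adj (l[v.val]'(by omega)) (l[u.val]'(by omega)) := by
    intro u v huv
    rcases fin_sub_one hn huv with h | ⟨h1, h2⟩
    · have := hadj v.val (by omega)
      simp only [← h] at this
      exact this
    · simp only [h1, h2]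
      exact hadj'
  refine ⟨⟨⟨fun i : Fin n => l[i.val]'(by omega), ?_⟩, ?_⟩⟩
  · intro a b hab
    rw [cycleGraph_adj'] at hab
    rcases hab with hab | hab
    · exact (key a b hab).symm
    · exact key b a hab
  · intro a b hab
    have := (List.Nodup.getElem_inj_iff hnd).1 hab
    exact Fin.ext this

theorem connOn_univ [Fintype V] {R : SimpleGraph V} (h : R.Connected) : ConnOn R Finset.univ := by
  intro S _ hS hne
  obtain ⟨a, ha⟩ := hS
  obtain ⟨b, hb⟩ : ∃ b, b ∉ S := by
    by_contra hcon
    push Not at hcon
    exact hne (Finset.eq_univ_iff_forall.2 hcon)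
  obtain ⟨w⟩ := h.preconnected a b
  obtain ⟨d, _, hd1, hd2⟩ := w.exists_boundary_dart (S : Set V) (by simpa using ha)
    (by simpa using hb)
  exact ⟨d.fst, by simpa using hd1, d.snd, Finset.mem_univ _, by simpa using hd2, d.adj⟩

/-- the upper bound in terms of containment -/
theorem upper_contained {N m n : ℕ} (hn : 3 ≤ n) (h1 : n - 1 + m / 2 ≤ N)
    (h2 : m - 2 + (n + 1) / 2 ≤ N) (hm : 1 ≤ m) (F : SimpleGraph (Fin N)) (hF : F.Connected) :
    (pathGraph m).IsContained F ∨ (cycleGraph n).IsContained Fᶜ := by
  by_cases hc : (pathGraph m).IsContained F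
  · exact Or.inl hc
  right
  refine contains_cycle (W := Finset.univ) hn (upper n hn Finset.univ (m - 1) (connOn_univ hF)
    (bdd_of_not_contains hc) ?_ ?_)
  · rw [Finset.card_univ, Fintype.card_fin]
    omega
  · rw [Finset.card_univ, Fintype.card_fin]
    omega

/-- Every totally connected graph with at least four vertices contains the four-vertex path. -/
theorem four {N m : ℕ} (hN : 4 ≤ N) (hm : m ≤ 4) (F : SimpleGraph (Fin N)) (hF : F.Connected)
    (hF' : Fᶜ.Connected) : (pathGraph m).IsContained F := by
  by_contra hc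
  have hb : Bdd F Finset.univ 3 := by
    intro l hl
    have := bdd_of_not_contains (W := Finset.univ) hc l hl
    omega
  have hcard : (Finset.univ : Finset (Fin N)).card = N := by simp
  obtain ⟨P, p, hp, hP⟩ := exists_lng (connOn_univ hF) hb (by omega) (by omega)
  have hthree := hP.three
  have hlen := hP.len
  obtain ⟨a, b, c, rfl⟩ : ∃ a b c, P = [a, b, c] := by
    match P, hlen with
    | [a, b, c], _ => exact ⟨a, b, c, rfl⟩
    | [], h => simp at h; omega
    | [a], h => simp at h; omega
    | [a, b], h => simp at h; omega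
    | a :: b :: c :: d :: l, h => simp at h; omega
  have hch := hP.path.1
  have hnd := hP.path.2.1
  simp only [List.isChain_cons_cons, List.isChain_singleton, and_true] at hch
  simp only [List.nodup_cons, List.mem_cons, List.not_mem_nil, or_false, not_or,
    not_false_eq_true, List.nodup_nil, and_true] at hnd
  have hall : ∀ y, y ≠ b → F.Adj b y := by
    by_contra hcon
    push Not at hcon
    obtain ⟨y0, hy0, hy0'⟩ := hcon
    obtain ⟨x, hx, y, _, hy, hxy⟩ := connOn_univ hF
      (Finset.univ.filter (fun z => z = b ∨ F.Adj b z)) (Finset.subset_univ _)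
      ⟨b, by simp⟩ (by
        intro h
        have : y0 ∈ Finset.univ.filter (fun z => z = b ∨ F.Adj b z) := by
          rw [h]; exact Finset.mem_univ _
        simp [hy0, hy0'] at this)
    simp only [Finset.mem_filter, Finset.mem_univ, true_and, not_or] at hx hy
    have hxb : x ≠ b := by
      rintro rfl
      exact hy.2 hxy
    have hbx : F.Adj b x := by
      rcases hx with h | h
      · exact (hxb h).elim
      · exact h
    obtain ⟨d, hd1, hd2⟩ : ∃ d, F.Adj b d ∧ d ≠ x := by
      by_cases h : a = x
      · exact ⟨c, hch.2, by rintro rfl; exact hnd.1.2 h⟩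
      · exact ⟨a, hch.1.symm, h⟩
    have hyd : y ≠ d := by
      rintro rfl
      exact hy.2 hd1
    have := hb [y, x, b, d] ⟨by simp [hxy.symm, hbx.symm, hd1], by
      simp [hxy.symm.ne, hy.1, hyd, hxb, hd2.symm, hd1.ne], by simp⟩
    simp at this
  obtain ⟨x, hx, y, _, hy, hxy⟩ := connOn_univ hF' {b} (Finset.subset_univ _) (by simp)
    (by
      intro h
      have := congrArg Finset.card h
      rw [hcard] at this
      simp at this
      omega)
  rw [Finset.mem_singleton] at hx hy
  subst hx
  rw [SimpleGraph.compl_adj] at hxy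
  exact hxy.2 (hall y hy)

end Pool.Agent.Helper70.Cr
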