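import Pool.Agent.Helper70.Cr.Longest

set_option autoImplicit false
set_option linter.unusedSectionVars false

open Classical

namespace Pool.Agent.Helper70.Cr

variable {V : Type*}
variable {R : SimpleGraph V} {W : Finset V} {P : List V} {p : ℕ}

/-- the interior vertices of the path which are adjacent to neither `x` nor `y` -/
noncomputable def Dset (R : SimpleGraph V) (v : ℕ → V) (p : ℕ) (x y : V) : Finset V :=
  ((Finset.Ico 1 (p - 1)).filter (fun i => ¬ R.Adj (v i) x ∧ ¬ R.Adj (v i) y)).image v

theorem Lng.getElem_inj (h : Lng R W P p) {v : ℕ → V} (hv : ∀ i (hi : i < P.length), P[i] = v i)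
    {i j : ℕ} (hi : i < p) (hj : j < p) (hij : v i = v j) : i = j := by
  have hl := h.len
  rw [← hv i (by omega), ← hv j (by omega)] at hij
  exact (List.Nodup.getElem_inj_iff h.path.2.1).1 hij

/-- number of positions on the path adjacent to `x` or `y`, with the number of adjacent pairs -/
theorem count_aux (S : Finset ℕ) (m : ℕ) (hS : S ⊆ Finset.Ico 1 m) :
    2 * S.card ≤ m + (S.filter (fun i => i + 1 ∈ S)).card := by
  set T := S.filter (fun i => i + 1 ∈ S) with hT
  have h1 : (S \ T).card + T.card = S.card := by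
    rw [Finset.card_sdiff_add_card_eq_card (Finset.filter_subset _ _)]
  have h2 : ((S \ T).image (fun i => i + 1)).card = (S \ T).card :=
    Finset.card_image_of_injective _ (fun a b hab => by simpa using hab)
  have h3 : Disjoint S ((S \ T).image (fun i => i + 1)) := by
    rw [Finset.disjoint_left]
    intro i hi hi2
    rw [Finset.mem_image] at hi2
    obtain ⟨j, hj, rfl⟩ := hi2
    rw [Finset.mem_sdiff] at hj
    exact hj.2 (Finset.mem_filter.2 ⟨hj.1, hi⟩)
  have h4 : S ∪ ((S \ T).image (fun i => i + 1)) ⊆ Finset.Ico 1 (m + 1) := by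
    intro i hi
    rw [Finset.mem_union, Finset.mem_image] at hi
    rw [Finset.mem_Ico]
    rcases hi with hi | ⟨j, hj, rfl⟩
    · have := Finset.mem_Ico.1 (hS hi)
      omega
    · have := Finset.mem_Ico.1 (hS (Finset.mem_sdiff.1 hj).1)
      omega
  have h5 := Finset.card_le_card h4
  rw [Finset.card_union_of_disjoint h3, Nat.card_Ico] at h5
  omega

theorem Lng.card_Dset_add (h : Lng R W P p) {v : ℕ → V}
    (hv : ∀ i (hi : i < P.length), P[i] = v i) (x y : V) :
    (Dset R v p x y).card +
      ((Finset.Ico 1 (p - 1)).filter (fun i => R.Adj (v i) x ∨ R.Adj (v i) y)).card = p - 2 := by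
  have h1 : (Dset R v p x y).card =
      ((Finset.Ico 1 (p - 1)).filter (fun i => ¬ R.Adj (v i) x ∧ ¬ R.Adj (v i) y)).card := by
    unfold Dset
    apply Finset.card_image_of_injOn
    intro i hi j hj hij
    rw [Finset.mem_coe, Finset.mem_filter, Finset.mem_Ico] at hi hj
    exact h.getElem_inj hv (by omega) (by omega) hij
  have h2 : (Finset.Ico 1 (p - 1)).filter (fun i => ¬ R.Adj (v i) x ∧ ¬ R.Adj (v i) y) =
      (Finset.Ico 1 (p - 1)).filter (fun i => ¬ (R.Adj (v i) x ∨ R.Adj (v i) y)) := by
    apply Finset.filter_congr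
    intro i _
    tauto
  rw [h1, h2, add_comm, Finset.card_filter_add_card_filter_not, Nat.card_Ico]
  omega

theorem Lng.card_Dset_of_none (h : Lng R W P p) {v : ℕ → V}
    (hv : ∀ i (hi : i < P.length), P[i] = v i) {x y : V} (hxW : x ∈ W) (hx : x ∉ P)
    (hyW : y ∈ W) (hy : y ∉ P)
    (hno : ∀ i, i + 1 < p → R.Adj (v i) x → ¬ R.Adj (v (i + 1)) y)
    (hno' : ∀ i, i + 1 < p → R.Adj (v i) y → ¬ R.Adj (v (i + 1)) x) :
    p ≤ 2 * (Dset R v p x y).card + 3 := by
  have h1 := h.card_Dset_add hv x y
  set S := (Finset.Ico 1 (p - 1)).filter (fun i => R.Adj (v i) x ∨ R.Adj (v i) y) with hS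
  have h2 := count_aux S (p - 1) (Finset.filter_subset _ _)
  have hl := h.len
  have h3 : S.filter (fun i => i + 1 ∈ S) = ∅ := by
    rw [Finset.filter_eq_empty_iff]
    intro i hi hi2
    rw [hS, Finset.mem_filter, Finset.mem_Ico] at hi hi2
    rcases hi.2 with ha | ha <;> rcases hi2.2 with hb | hb
    · exact h.consec hxW hx (i := i) (by omega) (by rw [hv]; exact ha) (by rw [hv]; exact hb)
    · exact hno i (by omega) ha hb
    · exact hno' i (by omega) ha hb
    · exact h.consec hyW hy (i := i) (by omega) (by rw [hv]; exact ha) (by rw [hv]; exact hb)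
  rw [h3, Finset.card_empty] at h2
  have := h.three
  omega

theorem Lng.card_cross (h : Lng R W P p) {v : ℕ → V}
    (hv : ∀ i (hi : i < P.length), P[i] = v i) {x y : V} (hxW : x ∈ W) (hx : x ∉ P)
    (hyW : y ∈ W) (hy : y ∉ P) (hxy : x ≠ y) (T : Finset ℕ) (hT : ∀ i ∈ T, i + 1 < p)
    (hT' : ∀ i ∈ T, R.Adj (v i) x ∧ R.Adj (v (i + 1)) y) : T.card ≤ 1 := by
  rw [Finset.card_le_one]
  have hl := h.len
  have key : ∀ i ∈ T, ∀ j ∈ T, ¬ i < j := by
    intro i hi j hj hij
    have h1 := hT i hi
    have h2 := hT j hj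
    exact h.crossing hxW hx hyW hy hxy hij (by omega) (by rw [hv]; exact (hT' i hi).1)
      (by rw [hv]; exact (hT' j hj).1) (by rw [hv]; exact (hT' i hi).2)
      (by rw [hv]; exact (hT' j hj).2)
  intro a ha b hb
  have h1 := key a ha b hb
  have h2 := key b hb a ha
  omega

theorem Lng.card_Dset (h : Lng R W P p) {v : ℕ → V}
    (hv : ∀ i (hi : i < P.length), P[i] = v i) {x y : V} (hxW : x ∈ W) (hx : x ∉ P)
    (hyW : y ∈ W) (hy : y ∉ P) (hxy : x ≠ y) :
    p ≤ 2 * (Dset R v p x y).card + 5 := by
  have h1 := h.card_Dset_add hv x y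
  set S := (Finset.Ico 1 (p - 1)).filter (fun i => R.Adj (v i) x ∨ R.Adj (v i) y) with hS
  have h2 := count_aux S (p - 1) (Finset.filter_subset _ _)
  have hl := h.len
  have h3 : S.filter (fun i => i + 1 ∈ S) ⊆
      (Finset.range (p - 1)).filter (fun i => R.Adj (v i) x ∧ R.Adj (v (i + 1)) y) ∪
      (Finset.range (p - 1)).filter (fun i => R.Adj (v i) y ∧ R.Adj (v (i + 1)) x) := by
    intro i hi
    rw [Finset.mem_filter, hS, Finset.mem_filter, Finset.mem_filter, Finset.mem_Ico,
      Finset.mem_Ico] at hi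
    rw [Finset.mem_union, Finset.mem_filter, Finset.mem_filter, Finset.mem_range]
    obtain ⟨⟨hi1, hi2⟩, hi3, hi4⟩ := hi
    rcases hi2 with ha | ha <;> rcases hi4 with hb | hb
    · exact (h.consec hxW hx (i := i) (by omega) (by rw [hv]; exact ha)
        (by rw [hv]; exact hb)).elim
    · exact Or.inl ⟨by omega, ha, hb⟩
    · exact Or.inr ⟨by omega, ha, hb⟩
    · exact (h.consec hyW hy (i := i) (by omega) (by rw [hv]; exact ha)
        (by rw [hv]; exact hb)).elim
  have h4 := Finset.card_le_card h3
  have h5 := Finset.card_union_le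
    ((Finset.range (p - 1)).filter (fun i => R.Adj (v i) x ∧ R.Adj (v (i + 1)) y))
    ((Finset.range (p - 1)).filter (fun i => R.Adj (v i) y ∧ R.Adj (v (i + 1)) x))
  have h6 := h.card_cross hv hxW hx hyW hy hxy
    ((Finset.range (p - 1)).filter (fun i => R.Adj (v i) x ∧ R.Adj (v (i + 1)) y))
    (fun i hi => by have := Finset.mem_range.1 (Finset.mem_filter.1 hi).1; omega)
    (fun i hi => (Finset.mem_filter.1 hi).2)
  have h7 := h.card_cross hv hyW hy hxW hx hxy.symm
    ((Finset.range (p - 1)).filter (fun i => R.Adj (v i) y ∧ R.Adj (v (i + 1)) x))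
    (fun i hi => by have := Finset.mem_range.1 (Finset.mem_filter.1 hi).1; omega)
    (fun i hi => (Finset.mem_filter.1 hi).2)
  have := h.three
  omega

/-- the condition under which the greedy choice works -/
def Good (D : V → V → Finset V) (F : Finset V) : List V → Prop
  | [] => True
  | [_] => True
  | x :: y :: l => l.length + 1 ≤ (D x y \ F).card ∧ Good D F (y :: l)

theorem good_of_forall (D : V → V → Finset V) (F : Finset V) (k : ℕ) :
    ∀ us : List V, us.Nodup → (∀ x ∈ us, ∀ y ∈ us, x ≠ y → k ≤ (D x y \ F).card) →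
      us.length ≤ k + 1 → Good D F us
  | [], _, _, _ => trivial
  | [_], _, _, _ => trivial
  | x :: y :: l, hnd, hall, hlen => by
    refine ⟨?_, ?_⟩
    · have h1 := hall x (by simp) y (by simp) (by
        rintro rfl
        simp at hnd)
      simp only [List.length_cons] at hlen
      omega
    · apply good_of_forall D F k (y :: l) (List.nodup_cons.1 hnd).2
      · intro a ha b hb
        exact hall a (List.mem_cons_of_mem _ ha) b (List.mem_cons_of_mem _ hb)
      · simp only [List.length_cons] at hlen ⊢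
        omega

theorem greedy (B : V → V → Prop) (D : V → V → Finset V) (F I U : Finset V)
    (hD : ∀ x ∈ U, ∀ y ∈ U, x ≠ y → ∀ c ∈ D x y, B x c ∧ B c y ∧ c ∈ I)
    (hUI : ∀ u ∈ U, u ∉ I) :
    ∀ us : List V, us ≠ [] → us.Nodup → (∀ u ∈ us, u ∈ U) → Good D F us →
      ∃ L : List V, L.length + 1 = 2 * us.length ∧ L.Nodup ∧ L.IsChain B ∧
        L.head? = us.head? ∧ L.getLast? = us.getLast? ∧
        (∀ z ∈ L, z ∈ us ∨ (z ∈ I ∧ z ∉ F)) ∧ (L.toFinset ∩ I).card + 1 ≤ us.length
  | [], h, _, _, _ => (h rfl).elim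
  | [x], _, _, hU, _ => by
    refine ⟨[x], by simp, by simp, by simp, rfl, rfl, by simp, ?_⟩
    have : ([x].toFinset ∩ I) = ∅ := by
      ext z
      simp only [List.toFinset_cons, List.toFinset_nil, insert_empty_eq, Finset.mem_inter,
        Finset.mem_singleton, Finset.notMem_empty, iff_false, not_and]
      rintro rfl
      exact hUI z (hU z (by simp))
    rw [this]
    simp
  | x :: y :: l, _, hnd, hU, hg => by
    obtain ⟨L, h1, h2, h3, h4, h5, h6, h7⟩ := greedy B D F I U hD hUI (y :: l) (by simp)
      (List.nodup_cons.1 hnd).2 (fun u hu => hU u (List.mem_cons_of_mem _ hu)) hg.2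
    have hxy : x ≠ y := by
      rintro rfl
      simp at hnd
    have hxU := hU x (by simp)
    have hyU := hU y (by simp)
    obtain ⟨c, hc, hcL⟩ : ∃ c ∈ D x y \ F, c ∉ L.toFinset ∩ I := by
      by_contra hcon
      push Not at hcon
      have h8 := Finset.card_le_card (show D x y \ F ⊆ L.toFinset ∩ I from hcon)
      have h9 := hg.1
      simp only [List.length_cons] at h7
      omega
    rw [Finset.mem_sdiff] at hc
    obtain ⟨hB1, hB2, hcI⟩ := hD x hxU y hyU hxy c hc.1
    have hcL' : c ∉ L := by
      intro h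
      exact hcL (Finset.mem_inter.2 ⟨List.mem_toFinset.2 h, hcI⟩)
    have hxL : x ∉ L := by
      intro h
      rcases h6 x h with h | h
      · exact (List.nodup_cons.1 hnd).1 h
      · exact hUI x hxU h.1
    have hxc : x ≠ c := by
      rintro rfl
      exact hUI x hxU hcI
    refine ⟨x :: c :: L, ?_, ?_, ?_, rfl, ?_, ?_, ?_⟩
    · simp only [List.length_cons] at h1 ⊢
      omega
    · simp [hxc, hxL, hcL', h2]
    · rw [List.isChain_cons, List.isChain_cons]
      refine ⟨by simpa using hB1, ?_, h3⟩
      rw [h4]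
      simpa using hB2
    · have hLne : L ≠ [] := by
        rintro rfl
        simp at h4
      obtain ⟨a, L', rfl⟩ := List.exists_cons_of_ne_nil hLne
      rw [List.getLast?_cons_cons, List.getLast?_cons_cons, h5, List.getLast?_cons_cons]
    · intro z hz
      simp only [List.mem_cons] at hz
      rcases hz with rfl | rfl | hz
      · left; simp
      · right; exact ⟨hcI, hc.2⟩
      · rcases h6 z hz with h | h
        · left; exact List.mem_cons_of_mem _ h
        · right; exact h
    · have h8 : ((x :: c :: L).toFinset ∩ I) ⊆ insert c (L.toFinset ∩ I) := by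
        intro z hz
        simp only [List.toFinset_cons, Finset.mem_inter, Finset.mem_insert,
          List.mem_toFinset] at hz ⊢
        rcases hz with ⟨rfl | rfl | hz, hz2⟩
        · exact (hUI z hxU hz2).elim
        · left; rfl
        · right; exact ⟨hz, hz2⟩
      have h9 := Finset.card_le_card h8
      have h10 := Finset.card_insert_le c (L.toFinset ∩ I)
      simp only [List.length_cons] at h7 ⊢
      omega

end Pool.Agent.Helper70.Cr
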