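import Pool.Agent.Helper70.Cr.Basic

set_option autoImplicit false
set_option linter.unusedSectionVars false

namespace Pool.Agent.Helper70.Cr

variable {V : Type*} [DecidableEq V]
variable {R : SimpleGraph V} {W : Finset V} {P : List V} {p : ℕ}

/-- a longest path that misses a vertex of a connected `W` -/
structure Lng (R : SimpleGraph V) (W : Finset V) (P : List V) (p : ℕ) : Prop where
  conn : ConnOn R W
  path : PathIn R W P
  len : P.length = p
  bdd : Bdd R W p
  lt : p < W.card
  three : 3 ≤ p

theorem Lng.reverse (h : Lng R W P p) : Lng R W P.reverse p :=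
  ⟨h.conn, h.path.reverse, by simpa using h.len, h.bdd, h.lt, h.three⟩

theorem Lng.split (h : Lng R W P p) (i : ℕ) : PathIn R W (P.take i ++ P.drop i) := by
  rw [List.take_append_drop]; exact h.path

theorem getLast_take {i : ℕ} (hi : i < P.length) {x : V} (hx : x ∈ (P.take (i + 1)).getLast?) :
    x = P[i] := by
  rw [List.getLast?_take] at hx
  simp only [Nat.add_eq_zero_iff, one_ne_zero, and_false, ↓reduceIte, Nat.add_sub_cancel,
    List.getElem?_eq_getElem hi, Option.some_or, Option.mem_def, Option.some.injEq] at hx
  exact hx.symm

theorem head_drop {i : ℕ} (hi : i < P.length) {x : V} (hx : x ∈ (P.drop i).head?) :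
    x = P[i] := by
  rw [List.head?_drop, List.getElem?_eq_getElem hi, Option.mem_def, Option.some.injEq] at hx
  exact hx.symm

theorem head_take {i : ℕ} (hi : 0 < P.length) {x : V} (hx : x ∈ (P.take (i + 1)).head?) :
    x = P[0] := by
  rw [List.head?_take] at hx
  simp only [Nat.add_eq_zero_iff, one_ne_zero, and_false, ↓reduceIte] at hx
  rw [List.head?_eq_getElem?, List.getElem?_eq_getElem hi, Option.mem_def,
    Option.some.injEq] at hx
  exact hx.symm

theorem getLast_drop {i : ℕ} (hi : i < P.length) {x : V} (hx : x ∈ (P.drop i).getLast?) :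
    x = P[P.length - 1] := by
  rw [List.getLast?_drop] at hx
  simp only [not_le.2 hi, ↓reduceIte] at hx
  rw [List.getLast?_eq_getElem?, List.getElem?_eq_getElem (by omega), Option.mem_def,
    Option.some.injEq] at hx
  exact hx.symm

variable (h : Lng R W P p)
include h

theorem Lng.consec {u : V} (huW : u ∈ W) (hu : u ∉ P) {i : ℕ} (hi : i + 1 < P.length)
    (h1 : R.Adj P[i] u) (h2 : R.Adj P[i + 1] u) : False := by
  have := insert_one (u := u) (h.split (i + 1)) (by rw [List.take_append_drop]; exact hu) huW
    (fun x hx => by rw [getLast_take (by omega) hx]; exact h1)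
    (fun x hx => by rw [head_drop hi hx]; exact h2.symm)
  have h3 := h.bdd _ this
  have := h.len
  simp only [List.length_append, List.length_cons, List.length_take, List.length_drop] at h3
  omega

theorem Lng.adjPair {u w : V} (huW : u ∈ W) (hu : u ∉ P) (hwW : w ∈ W) (hw : w ∉ P)
    {i : ℕ} (hi : i + 1 < P.length)
    (h1 : R.Adj P[i] u) (h2 : R.Adj P[i + 1] w) : ¬ R.Adj u w := by
  intro huw
  have := insert_two (u := u) (w := w) (h.split (i + 1))
    (by rw [List.take_append_drop]; exact hu) (by rw [List.take_append_drop]; exact hw) huw huW hwW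
    (fun x hx => by rw [getLast_take (by omega) hx]; exact h1)
    (fun x hx => by rw [head_drop hi hx]; exact h2.symm)
  have h3 := h.bdd _ this
  have := h.len
  simp only [List.length_append, List.length_cons, List.length_take, List.length_drop] at h3
  omega

theorem Lng.first {u : V} (huW : u ∈ W) (hu : u ∉ P) (h0 : 0 < P.length) : ¬ R.Adj P[0] u := by
  intro h1
  have := insert_one (R := R) (W := W) (A := []) (C := P) (u := u) (by simpa using h.path)
    (by simpa using hu) huW (by simp)
    (fun x hx => by rw [← List.drop_zero (l := P)] at hx; rw [head_drop h0 hx]; exact h1.symm)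
  have h3 := h.bdd _ this
  have := h.len
  simp only [List.nil_append, List.length_cons] at h3
  omega

theorem Lng.last {u : V} (huW : u ∈ W) (hu : u ∉ P) (h0 : P.length - 1 < P.length) :
    ¬ R.Adj P[P.length - 1] u := by
  have := h.reverse.first huW (by simpa using hu) (by simp; omega)
  rw [List.getElem_reverse] at this
  simpa using this

theorem Lng.crossing {u w : V} (huW : u ∈ W) (hu : u ∉ P) (hwW : w ∈ W) (hw : w ∉ P)
    (huw : u ≠ w) {i j : ℕ} (hij : i < j) (hj : j + 1 < P.length)
    (h1 : R.Adj P[i] u) (h2 : R.Adj P[j] u) (h3 : R.Adj P[i + 1] w) (h4 : R.Adj P[j + 1] w) :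
    False := by
  have e : P = P.take (i + 1) ++ (P.drop (i + 1)).take (j - i) ++ P.drop (j + 1) := by
    have : P.drop (j + 1) = (P.drop (i + 1)).drop (j - i) := by
      rw [List.drop_drop]; congr 1; omega
    rw [this, List.append_assoc, List.take_append_drop, List.take_append_drop]
  have hM : (P.drop (i + 1)).take (j - i) ≠ [] := by
    intro h0
    have := congrArg List.length h0
    simp only [List.length_take, List.length_drop, List.length_nil] at this
    omega
  have := insert_cross (R := R) (W := W) (A := P.take (i + 1))
    (M := (P.drop (i + 1)).take (j - i)) (C := P.drop (j + 1)) (u := u) (w := w)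
    (by rw [← e]; exact h.path) (by rw [← e]; exact hu) (by rw [← e]; exact hw) huw huW hwW hM
    (fun x hx => by rw [getLast_take (by omega) hx]; exact h1)
    (fun x hx => by
      obtain ⟨k, hk⟩ : ∃ k, j - i = k + 1 := ⟨j - i - 1, by omega⟩
      rw [hk] at hx
      rw [getLast_take (by rw [List.length_drop]; omega) hx, List.getElem_drop]
      have : i + 1 + k = j := by omega
      simp only [this]
      exact h2.symm)
    (fun x hx => by
      obtain ⟨k, hk⟩ : ∃ k, j - i = k + 1 := ⟨j - i - 1, by omega⟩
      rw [hk] at hx
      rw [head_take (by rw [List.length_drop]; omega) hx, List.getElem_drop]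
      simp only [Nat.add_zero]
      exact h3)
    (fun x hx => by rw [head_drop hj hx]; exact h4.symm)
  have h5 := h.bdd _ this
  have := h.len
  simp only [List.length_append, List.length_cons, List.length_take, List.length_drop,
    List.length_reverse] at h5
  omega

theorem Lng.first_succ {u : V} (huW : u ∈ W) (hu : u ∉ P) {i : ℕ} (hi : i + 1 < P.length)
    (h1 : R.Adj P[i] u) : ¬ R.Adj P[0] P[i + 1] := by
  intro h2
  have := rev_head (R := R) (W := W) (A := P.take (i + 1)) (C := P.drop (i + 1)) (z := u)
    (h.split (i + 1)) (by rw [List.take_append_drop]; exact hu) huW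
    (fun x hx => by rw [getLast_take (by omega) hx]; exact h1.symm)
    (by
      intro h0
      have := congrArg List.length h0
      simp only [List.length_take, List.length_nil] at this
      omega)
    (fun x hx y hy => by rw [head_take (by omega) hx, head_drop hi hy]; exact h2)
  have h5 := h.bdd _ this
  have := h.len
  simp only [List.length_append, List.length_cons, List.length_take, List.length_drop,
    List.length_reverse] at h5
  omega

theorem Lng.ends (h0 : 0 < P.length) (h1 : P.length - 1 < P.length) :
    ¬ R.Adj P[0] P[P.length - 1] := by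
  intro h2
  refine closed_false h.conn h.path h.len h.bdd (by have := h.three; omega) h.lt ?_
  intro a ha b hb
  right
  rw [← List.drop_zero (l := P)] at ha hb
  rw [head_drop h0 ha, getLast_drop h0 hb]
  exact h2.symm

/-- the crossing argument for the two ends of a longest path -/
theorem Lng.no_cross {i : ℕ} (hi : i + 1 < P.length) (h0 : 0 < P.length)
    (h1 : P.length - 1 < P.length) (h2 : R.Adj P[0] P[i + 1]) (h3 : R.Adj P[P.length - 1] P[i]) :
    False := by
  have hs := h.split (i + 1)
  obtain ⟨c1, c2, c3⟩ := hs
  rw [List.isChain_append] at c1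
  have hA : P.take (i + 1) ≠ [] := by
    intro h0
    have := congrArg List.length h0
    simp only [List.length_take, List.length_nil] at this
    omega
  have hC : P.drop (i + 1) ≠ [] := by
    intro h0
    have := congrArg List.length h0
    simp only [List.length_drop, List.length_nil] at this
    omega
  have key : PathIn R W (P.drop (i + 1) ++ (P.take (i + 1)).reverse) := by
    refine ⟨?_, ?_, ?_⟩
    · rw [List.isChain_append, List.isChain_reverse]
      refine ⟨c1.2.1, c1.1.imp fun a b h => h.symm, ?_⟩
      intro x hx y hy
      rw [List.head?_reverse] at hy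
      rw [getLast_drop hi hx, getLast_take (by omega) hy]
      exact h3
    · have := (List.nodup_append_comm).1 c2
      rw [List.nodup_append] at this ⊢
      exact ⟨this.1, List.nodup_reverse.2 this.2.1,
        fun a ha b hb => this.2.2 a ha b (List.mem_reverse.1 hb)⟩
    · intro x hx
      apply c3
      simp only [List.mem_append, List.mem_reverse] at hx ⊢
      tauto
  refine closed_false h.conn key ?_ h.bdd (by have := h.three; omega) h.lt ?_
  · have := h.len
    simp only [List.length_append, List.length_take, List.length_drop, List.length_reverse]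
    omega
  · intro a ha b hb
    right
    rw [List.head?_append_of_ne_nil _ hC] at ha
    rw [List.getLast?_append_of_ne_nil _ (by simpa using hA), List.getLast?_reverse] at hb
    rw [head_drop hi ha, head_take (by omega) hb]
    exact h2

omit h in
/-- existence of a longest path, in the situation that interests us -/
theorem exists_lng {q : ℕ} (hconn : ConnOn R W) (hq : Bdd R W q) (h3 : 3 ≤ W.card)
    (hlt : q < W.card) : ∃ P p, p ≤ q ∧ Lng R W P p := by
  classical
  have hne : ∃ n, ∃ P, PathIn R W P ∧ P.length = n := ⟨0, [], by simp [PathIn], rfl⟩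
  have hbdd : ∀ n, (∃ P, PathIn R W P ∧ P.length = n) → n ≤ q := by
    rintro n ⟨P, hP, rfl⟩
    exact hq P hP
  obtain ⟨p, ⟨P, hP, hPp⟩, hmax⟩ : ∃ p, (∃ P, PathIn R W P ∧ P.length = p) ∧
      ∀ n, (∃ P, PathIn R W P ∧ P.length = n) → n ≤ p := by
    refine ⟨Nat.findGreatest (fun n => ∃ P, PathIn R W P ∧ P.length = n) q,
      Nat.findGreatest_spec (P := fun n => ∃ P, PathIn R W P ∧ P.length = n) (Nat.zero_le q)
        ⟨[], by simp [PathIn], rfl⟩, ?_⟩
    intro n hn
    exact Nat.le_findGreatest (hbdd n hn) hn
  have hpq : p ≤ q := hbdd p ⟨P, hP, hPp⟩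
  have hb : Bdd R W p := fun l hl => hmax _ ⟨l, hl, rfl⟩
  refine ⟨P, p, hpq, hconn, hP, hPp, hb, by omega, ?_⟩
  by_contra hcon
  have hp1 : 1 ≤ p := by
    obtain ⟨x, hx⟩ : W.Nonempty := by rw [← Finset.card_pos]; omega
    have := hb [x] ⟨by simp, by simp, by simpa using hx⟩
    simpa using this
  refine closed_false hconn hP hPp hb hp1 (by omega) ?_
  intro a ha b hb'
  match P, hPp with
  | [x], _ => left; simp at ha hb'; rw [← ha, ← hb']
  | [x, y], _ =>
    right
    simp at ha hb'
    have := hP.1
    simp at this
    rw [← ha, ← hb']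
    exact this.symm
  | [], h => simp at h; omega
  | x :: y :: z :: l, h => simp at h; omega

end Pool.Agent.Helper70.Cr
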