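import Pool.Agent.Helper70.Cr.Convert

set_option autoImplicit false
set_option linter.unusedSectionVars false
set_option linter.unusedSimpArgs false

open Classical SimpleGraph

namespace Pool.Agent.Helper70.Cr

/-- a copy of a path as a sequence -/
theorem path_seq {V : Type*} {F : SimpleGraph V} {m : ℕ} (hm : 1 ≤ m)
    (h : (pathGraph m).IsContained F) :
    ∃ g : ℕ → V, (∀ i < m, ∀ j < m, g i = g j → i = j) ∧
      ∀ i, i + 1 < m → F.Adj (g i) (g (i + 1)) := by
  obtain ⟨f⟩ := h
  refine ⟨fun i => f ⟨min i (m - 1), by omega⟩, ?_, ?_⟩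
  · intro i hi j hj hij
    have := f.injective hij
    simp only [Fin.mk.injEq] at this
    omega
  · intro i hi
    apply f.toHom.map_adj
    rw [pathGraph_adj]
    simp only
    omega

/-- a copy of a cycle as a map on `Fin n` with successor -/
theorem cycle_map {V : Type*} {B : SimpleGraph V} {n : ℕ}
    (h : (cycleGraph (n + 3)).IsContained B) :
    ∃ f : Fin (n + 3) → V, Function.Injective f ∧ ∀ i, B.Adj (f i) (f (i + 1)) := by
  obtain ⟨f⟩ := h
  refine ⟨f, f.injective, ?_⟩
  intro i
  apply f.toHom.map_adj
  rw [cycleGraph_adj]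
  right
  exact add_sub_cancel_left i 1

theorem cycle_two {V : Type*} {B : SimpleGraph V} {n : ℕ} {f : Fin (n + 3) → V}
    (hf : Function.Injective f) (hadj : ∀ i, B.Adj (f i) (f (i + 1))) (i : Fin (n + 3)) :
    ∃ a b, a ≠ b ∧ B.Adj (f i) a ∧ B.Adj (f i) b := by
  refine ⟨f (i + 1), f (i - 1), ?_, hadj i, ?_⟩
  · intro h
    have h1 := hf h
    have h2 : i + 1 + 1 = i := by
      rw [h1, sub_add_cancel]
    rw [add_assoc] at h2
    have h3 := add_eq_left.1 h2
    have h4 : ((1 : Fin (n + 3)) + 1).val = 0 := by
      rw [h3]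
      rfl
    rw [Fin.val_add, Fin.val_one, Nat.mod_eq_of_lt (by omega)] at h4
    omega
  · have := hadj (i - 1)
    rw [sub_add_cancel] at this
    exact this.symm

/-- what a lower bound needs: a graph on `N` vertices -/
def Witness (N m n : ℕ) : Prop :=
  ∃ F : SimpleGraph (Fin N), F.Connected ∧ Fᶜ.Connected ∧ ¬ (pathGraph m).IsContained F ∧
    ¬ (cycleGraph n).IsContained Fᶜ

theorem connected_of {N : ℕ} {F : SimpleGraph (Fin N)} (r : Fin N)
    (h : ∀ a, F.Reachable r a) : F.Connected :=
  { preconnected := fun a b => (h a).symm.trans (h b)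
    nonempty := ⟨r⟩ }

/-- first family -/
def relA (h : ℕ) (N : ℕ) (a b : Fin N) : Prop :=
  a.val < h ∧ ¬ (a.val = 0 ∧ b.val = h) ∧ ¬ (0 < a.val ∧ b.val = h + 1)

theorem relA_adj {h N : ℕ} {a b : Fin N} : (SimpleGraph.fromRel (relA h N)).Adj a b ↔
    a.val ≠ b.val ∧ (relA h N a b ∨ relA h N b a) := by
  rw [SimpleGraph.fromRel_adj, ← Fin.val_ne_iff]

theorem witnessA {h n : ℕ} (hh : 2 ≤ h) {m : ℕ} (hm : 2 * h + 2 ≤ m) :
    Witness (h + (n + 2)) m (n + 3) := by
  refine ⟨SimpleGraph.fromRel (relA h (h + (n + 2))), ?_, ?_, ?_, ?_⟩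
  · apply connected_of ⟨0, by omega⟩
    intro a
    by_cases h0 : a.val = 0
    · have : a = ⟨0, by omega⟩ := Fin.ext h0
      rw [this]
    by_cases h1 : a.val = h
    · have e1 : (SimpleGraph.fromRel (relA h (h + (n + 2)))).Adj ⟨0, by omega⟩ ⟨1, by omega⟩ := by
        rw [relA_adj]
        simp only [relA, true_and, and_true, not_true_eq_false, and_false, false_and]
        omega
      have e2 : (SimpleGraph.fromRel (relA h (h + (n + 2)))).Adj ⟨1, by omega⟩ a := by
        rw [relA_adj]
        simp only [relA, true_and, and_true, not_true_eq_false, and_false, false_and]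
        omega
      exact e1.reachable.trans e2.reachable
    · have e1 : (SimpleGraph.fromRel (relA h (h + (n + 2)))).Adj ⟨0, by omega⟩ a := by
        rw [relA_adj]
        simp only [relA, true_and, and_true, not_true_eq_false, and_false, false_and]
        omega
      exact e1.reachable
  · apply connected_of ⟨h, by omega⟩
    have hbig : ∀ a : Fin (h + (n + 2)), h ≤ a.val →
        (SimpleGraph.fromRel (relA h (h + (n + 2))))ᶜ.Reachable ⟨h, by omega⟩ a := by
      intro a ha
      by_cases h1 : a.val = h
      · have : a = ⟨h, by omega⟩ := Fin.ext h1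
        rw [this]
      · have e1 : (SimpleGraph.fromRel (relA h (h + (n + 2))))ᶜ.Adj ⟨h, by omega⟩ a := by
          rw [SimpleGraph.compl_adj, relA_adj, ← Fin.val_ne_iff]
          simp only [relA, true_and, and_true, not_true_eq_false, and_false, false_and]
          omega
        exact e1.reachable
    intro a
    by_cases ha : h ≤ a.val
    · exact hbig a ha
    by_cases h0 : a.val = 0
    · have e1 : (SimpleGraph.fromRel (relA h (h + (n + 2))))ᶜ.Adj ⟨h, by omega⟩ a := by
        rw [SimpleGraph.compl_adj, relA_adj, ← Fin.val_ne_iff]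
        simp only [relA, true_and, and_true, not_true_eq_false, and_false, false_and]
        omega
      exact e1.reachable
    · have e1 : (SimpleGraph.fromRel (relA h (h + (n + 2))))ᶜ.Adj ⟨h + 1, by omega⟩ a := by
        rw [SimpleGraph.compl_adj, relA_adj, ← Fin.val_ne_iff]
        simp only [relA, true_and, and_true, not_true_eq_false, and_false, false_and]
        omega
      exact (hbig ⟨h + 1, by omega⟩ (by simp)).trans e1.reachable
  · intro hc
    obtain ⟨g, hg1, hg2⟩ := path_seq (by omega) hc
    have hex : ∀ i, i < h + 1 → ∃ e, (e = 2 * i ∨ e = 2 * i + 1) ∧ (g e).val < h := by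
      intro i hi
      have := hg2 (2 * i) (by omega)
      rw [relA_adj] at this
      rcases this.2 with h1 | h1
      · exact ⟨2 * i, Or.inl rfl, h1.1⟩
      · exact ⟨2 * i + 1, Or.inr rfl, h1.1⟩
    choose! e he1 he2 using hex
    obtain ⟨i, hi, j, hj, hij, hgij⟩ := Finset.exists_ne_map_eq_of_card_lt_of_maps_to
      (s := Finset.range (h + 1)) (t := Finset.range h) (f := fun i => (g (e i)).val)
      (by simp) (by
        intro i hi
        rw [Finset.mem_coe, Finset.mem_range] at hi
        rw [Finset.mem_coe, Finset.mem_range]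
        exact he2 i hi)
    rw [Finset.mem_range] at hi hj
    have h1 := he1 i hi
    have h2 := he1 j hj
    have h3 := hg1 (e i) (by omega) (e j) (by omega) (Fin.ext hgij)
    omega
  · intro hc
    obtain ⟨f, hf, hadj⟩ := cycle_map hc
    obtain ⟨i, hi⟩ : ∃ i, (f i).val < h := by
      by_contra hcon
      push Not at hcon
      obtain ⟨i, hi, j, hj, hij, hfij⟩ := Finset.exists_ne_map_eq_of_card_lt_of_maps_to
        (s := (Finset.univ : Finset (Fin (n + 3)))) (t := Finset.Ico h (h + (n + 2)))
        (f := fun i => (f i).val) (by simp) (by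
          intro i _
          rw [Finset.mem_coe, Finset.mem_Ico]
          exact ⟨hcon i, (f i).isLt⟩)
      exact hij (hf (Fin.ext hfij))
    obtain ⟨a, b, hab, ha, hb⟩ := cycle_two hf hadj i
    rw [SimpleGraph.compl_adj, relA_adj] at ha hb
    rw [← Fin.val_ne_iff] at ha hb hab
    simp only [relA] at ha hb
    omega

/-- second family -/
def relB (k : ℕ) (N : ℕ) (a b : Fin N) : Prop :=
  (a.val < k ∧ b.val < k ∧ ¬ (a.val + b.val = 1)) ∨ (a.val = 0 ∧ k ≤ b.val)

theorem relB_adj {h N : ℕ} {a b : Fin N} : (SimpleGraph.fromRel (relB h N)).Adj a b ↔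
    a.val ≠ b.val ∧ (relB h N a b ∨ relB h N b a) := by
  rw [SimpleGraph.fromRel_adj, ← Fin.val_ne_iff]

theorem witnessB {k s n : ℕ} (hk : 3 ≤ k) (hs1 : 1 ≤ s) (hs : 2 * s < n + 3) :
    Witness (k + s) (k + 2) (n + 3) := by
  refine ⟨SimpleGraph.fromRel (relB k (k + s)), ?_, ?_, ?_, ?_⟩
  · apply connected_of ⟨2, by omega⟩
    intro a
    by_cases h2 : a.val = 2
    · have : a = ⟨2, by omega⟩ := Fin.ext h2
      rw [this]
    by_cases h1 : a.val < k
    · have e1 : (SimpleGraph.fromRel (relB k (k + s))).Adj ⟨2, by omega⟩ a := by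
        rw [relB_adj]
        simp only [relB, true_and, and_true, not_true_eq_false, and_false, false_and]
        omega
      exact e1.reachable
    · have e1 : (SimpleGraph.fromRel (relB k (k + s))).Adj ⟨2, by omega⟩ ⟨0, by omega⟩ := by
        rw [relB_adj]
        simp only [relB, true_and, and_true, not_true_eq_false, and_false, false_and]
        omega
      have e2 : (SimpleGraph.fromRel (relB k (k + s))).Adj ⟨0, by omega⟩ a := by
        rw [relB_adj]
        simp only [relB, true_and, and_true, not_true_eq_false, and_false, false_and]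
        omega
      exact e1.reachable.trans e2.reachable
  · apply connected_of ⟨k, by omega⟩
    have hne : ∀ a : Fin (k + s), a.val ≠ 0 →
        (SimpleGraph.fromRel (relB k (k + s)))ᶜ.Reachable ⟨k, by omega⟩ a := by
      intro a ha
      by_cases h1 : a.val = k
      · have : a = ⟨k, by omega⟩ := Fin.ext h1
        rw [this]
      · have e1 : (SimpleGraph.fromRel (relB k (k + s)))ᶜ.Adj ⟨k, by omega⟩ a := by
          rw [SimpleGraph.compl_adj, relB_adj, ← Fin.val_ne_iff]
          simp only [relB, true_and, and_true, not_true_eq_false, and_false, false_and]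
          omega
        exact e1.reachable
    intro a
    by_cases h0 : a.val = 0
    · have e1 : (SimpleGraph.fromRel (relB k (k + s)))ᶜ.Adj ⟨1, by omega⟩ a := by
        rw [SimpleGraph.compl_adj, relB_adj, ← Fin.val_ne_iff]
        simp only [relB, true_and, and_true, not_true_eq_false, and_false, false_and]
        omega
      exact (hne ⟨1, by omega⟩ (by simp)).trans e1.reachable
    · exact hne a h0
  · intro hc
    obtain ⟨g, hg1, hg2⟩ := path_seq (by omega) hc
    have hmid : ∀ i, 1 ≤ i → i ≤ k → (g i).val < k := by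
      intro i hi1 hi2
      by_contra hcon
      obtain ⟨j, rfl⟩ : ∃ j, i = j + 1 := ⟨i - 1, by omega⟩
      have h1 := hg2 j (by omega)
      have h2 := hg2 (j + 1) (by omega)
      rw [relB_adj] at h1 h2
      simp only [relB] at h1 h2
      have h3 : (g j).val = (g (j + 1 + 1)).val := by omega
      have := hg1 j (by omega) (j + 1 + 1) (by omega) (Fin.ext h3)
      omega
    have h0 : ¬ (g 0).val < k := by
      intro h0
      obtain ⟨i, hi, j, hj, hij, hgij⟩ := Finset.exists_ne_map_eq_of_card_lt_of_maps_to
        (s := Finset.range (k + 1)) (t := Finset.range k) (f := fun i => (g i).val)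
        (by simp) (by
          intro i hi
          rw [Finset.mem_coe, Finset.mem_range] at hi
          rw [Finset.mem_coe, Finset.mem_range]
          rcases Nat.eq_zero_or_pos i with rfl | hi0
          · exact h0
          · exact hmid i hi0 (by omega))
      rw [Finset.mem_range] at hi hj
      exact hij (hg1 i (by omega) j (by omega) (Fin.ext hgij))
    have h1 : ¬ (g (k + 1)).val < k := by
      intro h0
      obtain ⟨i, hi, j, hj, hij, hgij⟩ := Finset.exists_ne_map_eq_of_card_lt_of_maps_to
        (s := Finset.Ico 1 (k + 2)) (t := Finset.range k) (f := fun i => (g i).val)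
        (by simp) (by
          intro i hi
          rw [Finset.mem_coe, Finset.mem_Ico] at hi
          rw [Finset.mem_coe, Finset.mem_range]
          rcases Nat.eq_or_lt_of_le (show i ≤ k + 1 by omega) with rfl | hi0
          · exact h0
          · exact hmid i (by omega) (by omega))
      rw [Finset.mem_Ico] at hi hj
      exact hij (hg1 i (by omega) j (by omega) (Fin.ext hgij))
    have e1 := hg2 0 (by omega)
    have e2 := hg2 k (by omega)
    rw [relB_adj] at e1 e2
    simp only [relB] at e1 e2
    have e3 := hg1 (0 + 1) (by omega) k (by omega) (Fin.ext (by omega))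
    omega
  · intro hc
    obtain ⟨f, hf, hadj⟩ := cycle_map hc
    have hne : ∀ i, (f i).val ≠ 0 := by
      intro i h0
      obtain ⟨a, b, hab, ha, hb⟩ := cycle_two hf hadj i
      rw [SimpleGraph.compl_adj, relB_adj] at ha hb
      rw [← Fin.val_ne_iff] at ha hb hab
      simp only [relB] at ha hb
      omega
    have hor : ∀ i, k ≤ (f i).val ∨ k ≤ (f (i + 1)).val := by
      intro i
      have h1 := hne i
      have h2 := hne (i + 1)
      have h3 := hadj i
      rw [SimpleGraph.compl_adj, relB_adj, ← Fin.val_ne_iff] at h3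
      simp only [relB] at h3
      omega
    set T := (Finset.univ : Finset (Fin (n + 3))).filter (fun i => k ≤ (f i).val) with hT
    have h1 : Tᶜ.image (fun i => i + 1) ⊆ T := by
      intro j hj
      rw [Finset.mem_image] at hj
      obtain ⟨i, hi, rfl⟩ := hj
      rw [Finset.mem_compl, hT, Finset.mem_filter] at hi
      rw [hT, Finset.mem_filter]
      refine ⟨Finset.mem_univ _, ?_⟩
      rcases hor i with h | h
      · exact (hi ⟨Finset.mem_univ _, h⟩).elim
      · exact h
    have h2 := Finset.card_le_card h1
    rw [Finset.card_image_of_injective _ (add_left_injective 1), Finset.card_compl,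
      Fintype.card_fin] at h2
    have h3 : T.card ≤ s := by
      have : T.card ≤ (Finset.Ico k (k + s)).card := by
        apply Finset.card_le_card_of_injOn (fun i => (f i).val)
        · intro i hi
          rw [Finset.mem_coe, hT, Finset.mem_filter] at hi
          rw [Finset.mem_coe, Finset.mem_Ico]
          exact ⟨hi.2, (f i).isLt⟩
        · intro i _ j _ hij
          exact hf (Fin.ext hij)
      rw [Nat.card_Ico] at this
      omega
    omega

/-- third family, for the five-vertex path -/
def relC (N : ℕ) (a b : Fin N) : Prop :=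
  (a.val = 0 ∧ 2 ≤ b.val) ∨ (a.val = 1 ∧ b.val = 2)

theorem relC_adj {N : ℕ} {a b : Fin N} : (SimpleGraph.fromRel (relC N)).Adj a b ↔
    a.val ≠ b.val ∧ (relC N a b ∨ relC N b a) := by
  rw [SimpleGraph.fromRel_adj, ← Fin.val_ne_iff]

theorem witnessC {n : ℕ} (hn : 1 ≤ n) : Witness (n + 3) 5 (n + 3) := by
  refine ⟨SimpleGraph.fromRel (relC (n + 3)), ?_, ?_, ?_, ?_⟩
  · apply connected_of ⟨0, by omega⟩
    have h2 : (SimpleGraph.fromRel (relC (n + 3))).Adj ⟨0, by omega⟩ ⟨2, by omega⟩ := by
      rw [relC_adj]
      simp only [relC, true_and, and_true, not_true_eq_false, and_false, false_and]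
      omega
    intro a
    by_cases h0 : a.val = 0
    · have : a = ⟨0, by omega⟩ := Fin.ext h0
      rw [this]
    by_cases h1 : a.val = 1
    · have e2 : (SimpleGraph.fromRel (relC (n + 3))).Adj ⟨2, by omega⟩ a := by
        rw [relC_adj]
        simp only [relC, true_and, and_true, not_true_eq_false, and_false, false_and]
        omega
      exact h2.reachable.trans e2.reachable
    · have e2 : (SimpleGraph.fromRel (relC (n + 3))).Adj ⟨0, by omega⟩ a := by
        rw [relC_adj]
        simp only [relC, true_and, and_true, not_true_eq_false, and_false, false_and]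
        omega
      exact e2.reachable
  · apply connected_of ⟨3, by omega⟩
    have h1 : ∀ a : Fin (n + 3), a.val ≠ 0 →
        (SimpleGraph.fromRel (relC (n + 3)))ᶜ.Reachable ⟨3, by omega⟩ a := by
      intro a ha
      by_cases h3 : a.val = 3
      · have : a = ⟨3, by omega⟩ := Fin.ext h3
        rw [this]
      · have e1 : (SimpleGraph.fromRel (relC (n + 3)))ᶜ.Adj ⟨3, by omega⟩ a := by
          rw [SimpleGraph.compl_adj, relC_adj, ← Fin.val_ne_iff]
          simp only [relC, true_and, and_true, not_true_eq_false, and_false, false_and]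
          omega
        exact e1.reachable
    intro a
    by_cases h0 : a.val = 0
    · have e1 : (SimpleGraph.fromRel (relC (n + 3)))ᶜ.Adj ⟨1, by omega⟩ a := by
        rw [SimpleGraph.compl_adj, relC_adj, ← Fin.val_ne_iff]
        simp only [relC, true_and, and_true, not_true_eq_false, and_false, false_and]
        omega
      exact (h1 ⟨1, by omega⟩ (by simp)).trans e1.reachable
    · exact h1 a h0
  · intro hc
    obtain ⟨g, hg1, hg2⟩ := path_seq (by omega) hc
    have a0 := hg2 0 (by omega)
    have a1 := hg2 1 (by omega)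
    have a2 := hg2 2 (by omega)
    have a3 := hg2 3 (by omega)
    have n02 : (g 0).val ≠ (g 2).val := fun h => by
      have := hg1 0 (by omega) 2 (by omega) (Fin.ext h)
      omega
    have n13 : (g 1).val ≠ (g 3).val := fun h => by
      have := hg1 1 (by omega) 3 (by omega) (Fin.ext h)
      omega
    have n24 : (g 2).val ≠ (g 4).val := fun h => by
      have := hg1 2 (by omega) 4 (by omega) (Fin.ext h)
      omega
    have n03 : (g 0).val ≠ (g 3).val := fun h => by
      have := hg1 0 (by omega) 3 (by omega) (Fin.ext h)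
      omega
    have n14 : (g 1).val ≠ (g 4).val := fun h => by
      have := hg1 1 (by omega) 4 (by omega) (Fin.ext h)
      omega
    have n04 : (g 0).val ≠ (g 4).val := fun h => by
      have := hg1 0 (by omega) 4 (by omega) (Fin.ext h)
      omega
    rw [relC_adj] at a0 a1 a2 a3
    simp only [relC, Nat.zero_add, Nat.reduceAdd] at a0 a1 a2 a3
    omega
  · intro hc
    obtain ⟨f, hf, hadj⟩ := cycle_map hc
    obtain ⟨i, hi⟩ : ∃ i, (f i).val = 0 := by
      obtain ⟨i, hi⟩ := (Finite.injective_iff_surjective.1 hf) ⟨0, by omega⟩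
      exact ⟨i, by rw [hi]⟩
    obtain ⟨a, b, hab, ha, hb⟩ := cycle_two hf hadj i
    rw [SimpleGraph.compl_adj, relC_adj] at ha hb
    rw [← Fin.val_ne_iff] at ha hb hab
    simp only [relC] at ha hb
    omega

end Pool.Agent.Helper70.Cr
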