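import Pool.Agent.Helper70.Cr.Count

set_option autoImplicit false
set_option linter.unusedSectionVars false

open Classical

namespace Pool.Agent.Helper70.Cr

variable {V : Type*}
variable {R : SimpleGraph V} {W : Finset V} {P : List V} {p : ℕ}

theorem exists_list (S : Finset V) (m : ℕ) (hm : m ≤ S.card) :
    ∃ l : List V, l.length = m ∧ l.Nodup ∧ ∀ z ∈ l, z ∈ S := by
  refine ⟨S.toList.take m, ?_, ?_, ?_⟩
  · rw [List.length_take, Finset.length_toList]
    omega
  · exact (List.take_sublist m _).nodup S.nodup_toList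
  · intro z hz
    exact Finset.mem_toList.1 (List.mem_of_mem_take hz)

theorem exists_fun (d : V) (P : List V) :
    ∃ v : ℕ → V, ∀ i (hi : i < P.length), P[i] = v i :=
  ⟨fun i => P.getD i d, fun i hi => by simp [List.getD_eq_getElem?_getD, hi]⟩

/-- the interior of the path -/
noncomputable def Inn (v : ℕ → V) (p : ℕ) : Finset V := (Finset.Ico 1 (p - 1)).image v

variable (h : Lng R W P p) {v : ℕ → V} (hv : ∀ i (hi : i < P.length), P[i] = v i)
include h hv

theorem Lng.v_mem {i : ℕ} (hi : i < p) : v i ∈ P := by
  have := h.len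
  rw [← hv i (by omega)]
  exact List.getElem_mem _

theorem Lng.adj0 {u : V} (huW : u ∈ W) (hu : u ∉ P) : Rᶜ.Adj (v 0) u := by
  have h1 := h.len
  have h2 := h.three
  rw [SimpleGraph.compl_adj]
  refine ⟨?_, ?_⟩
  · rintro rfl
    exact hu (h.v_mem hv (by omega))
  · rw [← hv 0 (by omega)]
    exact h.first huW hu (by omega)

theorem Lng.adj1 {u : V} (huW : u ∈ W) (hu : u ∉ P) : Rᶜ.Adj (v (p - 1)) u := by
  have h1 := h.len
  have h2 := h.three
  subst h1
  rw [SimpleGraph.compl_adj]
  refine ⟨?_, ?_⟩
  · rintro rfl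
    exact hu (h.v_mem hv (by omega))
  · rw [← hv _ (by omega)]
    exact h.last huW hu (by omega)

theorem Lng.adj01 : Rᶜ.Adj (v (p - 1)) (v 0) := by
  have h1 := h.len
  have h2 := h.three
  subst h1
  rw [SimpleGraph.compl_adj]
  refine ⟨?_, ?_⟩
  · intro hc
    have := h.getElem_inj hv (by omega) (by omega) hc
    omega
  · intro hc
    refine h.ends (by omega) (by omega) ?_
    rw [hv, hv]
    exact hc.symm

theorem Lng.inn_mem {z : V} (hz : z ∈ Inn v p) : z ∈ P ∧ z ≠ v 0 ∧ z ≠ v (p - 1) := by
  have h2 := h.three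
  rw [Inn, Finset.mem_image] at hz
  obtain ⟨i, hi, rfl⟩ := hz
  rw [Finset.mem_Ico] at hi
  refine ⟨h.v_mem hv (by omega), ?_, ?_⟩
  · intro hc
    have := h.getElem_inj hv (by omega) (by omega) hc
    omega
  · intro hc
    have := h.getElem_inj hv (by omega) (by omega) hc
    omega

theorem Lng.Dset_prop {x y c : V} (hx : x ∉ P) (hy : y ∉ P) (hc : c ∈ Dset R v p x y) :
    Rᶜ.Adj x c ∧ Rᶜ.Adj c y ∧ c ∈ Inn v p := by
  have hcI : c ∈ Inn v p := by
    rw [Dset, Finset.mem_image] at hc
    obtain ⟨i, hi, rfl⟩ := hc
    exact Finset.mem_image_of_mem _ (Finset.mem_filter.1 hi).1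
  rw [Dset, Finset.mem_image] at hc
  obtain ⟨i, hi, rfl⟩ := hc
  rw [Finset.mem_filter] at hi
  have hP := (h.inn_mem hv hcI).1
  refine ⟨?_, ?_, hcI⟩
  · rw [SimpleGraph.compl_adj]
    refine ⟨?_, fun h => hi.2.1 h.symm⟩
    rintro rfl
    exact hx hP
  · rw [SimpleGraph.compl_adj]
    refine ⟨?_, hi.2.2⟩
    intro h
    rw [h] at hP
    exact hy hP

theorem Lng.assemble {M : List V} (h1 : M.Nodup) (h2 : M.IsChain Rᶜ.Adj) (h3 : M ≠ [])
    (h4 : ∀ a ∈ M.getLast?, a ∈ W ∧ a ∉ P) (h5 : ∀ z ∈ M, (z ∈ W ∧ z ∉ P) ∨ z ∈ Inn v p)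
    (h6 : ∀ b ∈ M.head?, Rᶜ.Adj (v 0) b) : CycIn R W (M.length + 2) := by
  have hthree := h.three
  have hne : v (p - 1) ≠ v 0 := (h.adj01 hv).ne
  have hM0 : v 0 ∉ M := by
    intro hc
    rcases h5 _ hc with h | h'
    · exact h.2 (Lng.v_mem ‹_› hv (by omega))
    · exact (h.inn_mem hv h').2.1 rfl
  have hM1 : v (p - 1) ∉ M := by
    intro hc
    rcases h5 _ hc with h | h'
    · exact h.2 (Lng.v_mem ‹_› hv (by omega))
    · exact (h.inn_mem hv h').2.2 rfl
  refine ⟨M ++ [v (p - 1), v 0], by simp, ?_, ?_, ?_, ?_⟩
  · rw [List.nodup_append]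
    refine ⟨h1, by simpa using hne, ?_⟩
    intro a ha b hb
    simp only [List.mem_cons, List.not_mem_nil, or_false] at hb
    rcases hb with rfl | rfl
    · rintro rfl; exact hM1 ha
    · rintro rfl; exact hM0 ha
  · intro x hx
    simp only [List.mem_append, List.mem_cons, List.not_mem_nil, or_false] at hx
    rcases hx with hx | rfl | rfl
    · rcases h5 x hx with h' | h'
      · exact h'.1
      · exact h.path.2.2 x (h.inn_mem hv h').1
    · exact h.path.2.2 _ (h.v_mem hv (by omega))
    · exact h.path.2.2 _ (h.v_mem hv (by omega))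
  · rw [List.isChain_append]
    refine ⟨h2, ?_, ?_⟩
    · simpa using h.adj01 hv
    · intro x hx y hy
      simp only [List.head?_cons, Option.mem_def, Option.some.injEq] at hy
      subst hy
      exact (h.adj1 hv (h4 x hx).1 (h4 x hx).2).symm
  · intro a ha b hb
    rw [List.head?_append_of_ne_nil _ h3] at ha
    rw [List.getLast?_append_of_ne_nil _ (by simp)] at hb
    simp only [List.getLast?_cons_cons, List.getLast?_singleton, Option.mem_def,
      Option.some.injEq] at hb
    subst hb
    exact h6 a ha

/-- the vertex following a neighbour of an outside vertex -/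
theorem Lng.w_prop {x : V} (hxW : x ∈ W) (hx : x ∉ P) {i : ℕ} (hi : i + 2 < p)
    (hix : R.Adj (v i) x) :
    Rᶜ.Adj (v 0) (v (i + 1)) ∧ Rᶜ.Adj (v (i + 1)) x ∧ v (i + 1) ∈ Inn v p := by
  have h1 := h.len
  have hI : v (i + 1) ∈ Inn v p := by
    rw [Inn, Finset.mem_image]
    exact ⟨i + 1, Finset.mem_Ico.2 ⟨by omega, by omega⟩, rfl⟩
  refine ⟨?_, ?_, hI⟩
  · rw [SimpleGraph.compl_adj]
    refine ⟨(h.inn_mem hv hI).2.1.symm, ?_⟩
    rw [← hv 0 (by omega), ← hv (i + 1) (by omega)]
    exact h.first_succ hxW hx (by omega) (by rw [hv]; exact hix)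
  · rw [SimpleGraph.compl_adj]
    refine ⟨?_, ?_⟩
    · intro hc
      exact hx (hc ▸ (h.inn_mem hv hI).1)
    · intro hc
      exact h.consec hxW hx (i := i) (by omega) (by rw [hv]; exact hix) (by rw [hv]; exact hc)

/-- from the greedy list to a cycle, with one extra vertex `w` or with `w, x` -/
theorem Lng.run {n : ℕ} (T us : List V) (F : Finset V) (hus : us ≠ []) (hnd : us.Nodup)
    (hU : ∀ u ∈ us, u ∈ W ∧ u ∉ P) (hg : Good (Dset R v p) F us)
    (hT : T.Nodup) (hTc : T.IsChain Rᶜ.Adj)
    (hTm : ∀ z ∈ T, ((z ∈ W ∧ z ∉ P) ∧ z ∉ us) ∨ (z ∈ Inn v p ∧ z ∈ F))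
    (hTl : ∀ a ∈ T.getLast?, ∀ b ∈ us.head?, Rᶜ.Adj a b)
    (hTh : ∀ a ∈ (T ++ us).head?, Rᶜ.Adj (v 0) a)
    (hn : n = 2 * us.length + 1 + T.length) : CycIn R W n := by
  obtain ⟨L, h1, h2, h3, h4, h5, h6, h7⟩ := greedy Rᶜ.Adj (Dset R v p) F (Inn v p)
    (W.filter (fun z => z ∉ P))
    (by
      intro x hx y hy hxy c hc
      rw [Finset.mem_filter] at hx hy
      exact h.Dset_prop hv hx.2 hy.2 hc)
    (by
      intro u hu huI
      rw [Finset.mem_filter] at hu
      exact hu.2 (h.inn_mem hv huI).1)
    us hus hnd (fun u hu => by rw [Finset.mem_filter]; exact hU u hu) hg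
  have hLne : L ≠ [] := by
    rintro rfl
    have : us.length ≠ 0 := by simpa using hus
    simp only [List.length_nil] at h1
    omega
  have key := h.assemble hv (M := T ++ L) ?_ ?_ ?_ ?_ ?_ ?_
  · rw [hn]
    convert key using 1
    rw [List.length_append]
    omega
  · rw [List.nodup_append]
    refine ⟨hT, h2, ?_⟩
    intro a ha b hb hab
    subst hab
    rcases hTm a ha with h' | h'
    · rcases h6 a hb with h'' | h''
      · exact h'.2 h''
      · exact h'.1.2 (h.inn_mem hv h''.1).1
    · rcases h6 a hb with h'' | h''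
      · exact (hU a h'').2 (h.inn_mem hv h'.1).1
      · exact h''.2 h'.2
  · rw [List.isChain_append]
    exact ⟨hTc, h3, fun x hx y hy => hTl x hx y (by rwa [← h4])⟩
  · simp [hLne]
  · intro a ha
    rw [List.getLast?_append_of_ne_nil _ hLne, h5] at ha
    exact hU a (List.mem_of_mem_getLast? ha)
  · intro z hz
    rcases List.mem_append.1 hz with hz | hz
    · rcases hTm z hz with h' | h'
      · exact Or.inl h'.1
      · exact Or.inr h'.1
    · rcases h6 z hz with h' | h'
      · exact Or.inl (hU z h')
      · exact Or.inr h'.1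
  · intro b hb
    apply hTh
    cases T with
    | nil =>
      rw [List.nil_append] at hb ⊢
      rwa [← h4]
    | cons a T => simpa using hb

theorem Lng.cyc_small_aux {n : ℕ} (hn : 3 ≤ n) (hnp : n ≤ p)
    (hW : p - 1 + (n + 1) / 2 ≤ W.card)
    (hE : ∃ x ∈ W, x ∉ P ∧ ∃ i, i + 2 < p ∧ R.Adj (v i) x) : CycIn R W n := by
  have hlen := h.len
  set U := W.filter (fun z => z ∉ P) with hUdef
  have hUcard : (n + 1) / 2 - 1 ≤ U.card := by
    have e : U = W \ P.toFinset := by
      ext z
      simp [hUdef]
    have h1 : P.toFinset ⊆ W := fun x hx => h.path.2.2 x (List.mem_toFinset.1 hx)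
    rw [e, Finset.card_sdiff_of_subset h1, List.toFinset_card_of_nodup h.path.2.1, hlen]
    omega
  have hUm : ∀ {z}, z ∈ U → z ∈ W ∧ z ∉ P := fun hz => by
    rwa [hUdef, Finset.mem_filter] at hz
  have hmU : ∀ {z}, z ∈ W → z ∉ P → z ∈ U := fun h1 h2 => by
    rw [hUdef, Finset.mem_filter]; exact ⟨h1, h2⟩
  by_cases hno : ∀ x ∈ U, ∀ y ∈ U, x ≠ y → ∀ i, i + 1 < p → R.Adj (v i) x →
      ¬ R.Adj (v (i + 1)) y
  · -- no crossing pairs
    have hD : ∀ x ∈ U, ∀ y ∈ U, x ≠ y → p ≤ 2 * (Dset R v p x y).card + 3 := by
      intro x hx y hy hxy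
      exact h.card_Dset_of_none hv (hUm hx).1 (hUm hx).2 (hUm hy).1 (hUm hy).2
        (hno x hx y hy hxy) (hno y hy x hx hxy.symm)
    rcases Nat.even_or_odd' n with ⟨k, hk | hk⟩
    · -- even
      obtain ⟨x, hxW, hxP, i, hi, hix⟩ := hE
      obtain ⟨w1, w2, w3⟩ := h.w_prop hv hxW hxP hi hix
      have hxU := hmU hxW hxP
      obtain ⟨l, hl1, hl2, hl3⟩ := exists_list (U.erase x) (k - 2) (by
        rw [Finset.card_erase_of_mem hxU]; omega)
      have hxl : x ∉ l := fun hc => by
        have := hl3 x hc
        simp at this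
      have hus : ∀ u ∈ x :: l, u ∈ U := by
        intro u hu
        rcases List.mem_cons.1 hu with rfl | hu
        · exact hxU
        · exact Finset.mem_of_mem_erase (hl3 u hu)
      refine h.run hv [v (i + 1)] (x :: l) {v (i + 1)} (by simp)
        (List.nodup_cons.2 ⟨hxl, hl2⟩) (fun u hu => hUm (hus u hu)) ?_ (by simp) (by simp)
        (by simp [w3]) (by simpa using w2) (by simpa using w1) ?_
      · apply good_of_forall _ _ (k - 2) _ (List.nodup_cons.2 ⟨hxl, hl2⟩)
        · intro a ha b hb hab
          have h1 := hD a (hus a ha) b (hus b hb) hab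
          have h2 := Finset.le_card_sdiff {v (i + 1)} (Dset R v p a b)
          rw [Finset.card_singleton] at h2
          omega
        · simp only [List.length_cons]
          omega
      · simp only [List.length_cons, List.length_nil]
        omega
    · -- odd
      obtain ⟨l, hl1, hl2, hl3⟩ := exists_list U k (by omega)
      have hlne : l ≠ [] := by
        rintro rfl
        simp at hl1
        omega
      refine h.run hv [] l ∅ hlne hl2 (fun u hu => hUm (hl3 u hu)) ?_ (by simp) (by simp)
        (by simp) (by simp) ?_ ?_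
      · apply good_of_forall _ _ (k - 1) _ hl2
        · intro a ha b hb hab
          have h1 := hD a (hl3 a ha) b (hl3 b hb) hab
          rw [Finset.sdiff_empty]
          omega
        · omega
      · intro a ha
        rw [List.nil_append] at ha
        have := hUm (hl3 a (List.mem_of_mem_head? ha))
        exact h.adj0 hv this.1 this.2
      · simp only [List.length_nil]
        omega
  · -- a crossing pair
    push Not at hno
    obtain ⟨x, hxU, y, hyU, hxy, i, hi, hix, hiy⟩ := hno
    obtain ⟨hxW, hxP⟩ := hUm hxU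
    obtain ⟨hyW, hyP⟩ := hUm hyU
    have hi2 : i + 2 < p := by
      by_contra hcon
      have : i + 1 = p - 1 := by omega
      rw [this] at hiy
      have := h.adj1 hv hyW hyP
      rw [SimpleGraph.compl_adj] at this
      exact this.2 hiy
    obtain ⟨w1, w2, w3⟩ := h.w_prop hv hxW hxP hi2 hix
    have hD : ∀ x ∈ U, ∀ y ∈ U, x ≠ y → p ≤ 2 * (Dset R v p x y).card + 5 := by
      intro x hx y hy hxy
      exact h.card_Dset hv (hUm hx).1 (hUm hx).2 (hUm hy).1 (hUm hy).2 hxy
    have hDy : ∀ z, v (i + 1) ∉ Dset R v p z y := by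
      intro z hc
      rw [Dset, Finset.mem_image] at hc
      obtain ⟨j, hj, hij⟩ := hc
      rw [Finset.mem_filter] at hj
      apply hj.2.2
      rw [hij]
      exact hiy
    have hDy' : ∀ z, v (i + 1) ∉ Dset R v p y z := by
      intro z hc
      rw [Dset, Finset.mem_image] at hc
      obtain ⟨j, hj, hij⟩ := hc
      rw [Finset.mem_filter] at hj
      apply hj.2.1
      rw [hij]
      exact hiy
    have hxyB : Rᶜ.Adj x y := by
      rw [SimpleGraph.compl_adj]
      exact ⟨hxy, h.adjPair hxW hxP hyW hyP (i := i) (by omega) (by rw [hv]; exact hix)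
        (by rw [hv]; exact hiy)⟩
    have hyx : y ∈ U.erase x := Finset.mem_erase.2 ⟨hxy.symm, hyU⟩
    have hpair : ∀ k, 2 * k ≤ p → ∀ a ∈ U, ∀ b ∈ U, a ≠ b →
        k - 3 ≤ (Dset R v p a b \ {v (i + 1)}).card := by
      intro k hk a ha b hb hab
      have h1 := hD a ha b hb hab
      have h2 := Finset.le_card_sdiff {v (i + 1)} (Dset R v p a b)
      rw [Finset.card_singleton] at h2
      omega
    rcases Nat.even_or_odd' n with ⟨k, hk | hk⟩
    · -- even
      rcases Nat.eq_or_lt_of_le (show 2 ≤ k by omega) with hk2 | hk3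
      · -- n = 4
        refine h.run hv [v (i + 1)] [x] {v (i + 1)} (by simp) (by simp)
          (by simpa using ⟨hxW, hxP⟩) trivial (by simp) (by simp) (by simp [w3])
          (by simpa using w2) (by simpa using w1) ?_
        simp only [List.length_cons, List.length_nil]
        omega
      · obtain ⟨l, hl1, hl2, hl3⟩ := exists_list ((U.erase x).erase y) (k - 3) (by
          rw [Finset.card_erase_of_mem hyx, Finset.card_erase_of_mem hxU]; omega)
        have hyl : y ∉ l := fun hc => by
          have := hl3 y hc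
          simp at this
        have hxl : x ∉ l := fun hc => by
          have := hl3 x hc
          simp at this
        have hlU : ∀ u ∈ l, u ∈ U := fun u hu =>
          Finset.mem_of_mem_erase (Finset.mem_of_mem_erase (hl3 u hu))
        have hus : ∀ u ∈ y :: l, u ∈ U := by
          intro u hu
          rcases List.mem_cons.1 hu with rfl | hu
          · exact hyU
          · exact hlU u hu
        have hnd : (y :: l).Nodup := List.nodup_cons.2 ⟨hyl, hl2⟩
        have hnd2 : (x :: y :: l).Nodup := List.nodup_cons.2 ⟨by simp [hxy, hxl], hnd⟩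
        refine h.run hv [v (i + 1)] (x :: y :: l) {v (i + 1)} (by simp) hnd2 ?_ ?_ (by simp)
          (by simp) (by simp [w3]) (by simpa using w2) (by simpa using w1) ?_
        · intro u hu
          rcases List.mem_cons.1 hu with rfl | hu
          · exact ⟨hxW, hxP⟩
          · exact hUm (hus u hu)
        · refine ⟨?_, ?_⟩
          · rw [Finset.sdiff_singleton_eq_erase, Finset.erase_eq_of_notMem (hDy x)]
            have := hD x hxU y hyU hxy
            omega
          · apply good_of_forall _ _ (k - 3) _ hnd
            · intro a ha b hb hab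
              exact hpair k (by omega) a (hus a ha) b (hus b hb) hab
            · simp only [List.length_cons]
              omega
        · simp only [List.length_cons, List.length_nil]
          omega
    · -- odd
      rcases Nat.eq_or_lt_of_le (show 1 ≤ k by omega) with hk1 | hk2
      · -- n = 3
        refine h.run hv [] [x] ∅ (by simp) (by simp) (by simpa using ⟨hxW, hxP⟩) trivial
          (by simp) (by simp) (by simp) (by simp) ?_ ?_
        · simpa using h.adj0 hv hxW hxP
        · simp only [List.length_cons, List.length_nil]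
          omega
      · obtain ⟨l, hl1, hl2, hl3⟩ := exists_list ((U.erase x).erase y) (k - 2) (by
          rw [Finset.card_erase_of_mem hyx, Finset.card_erase_of_mem hxU]; omega)
        have hyl : y ∉ l := fun hc => by
          have := hl3 y hc
          simp at this
        have hxl : x ∉ l := fun hc => by
          have := hl3 x hc
          simp at this
        have hlU : ∀ u ∈ l, u ∈ U := fun u hu =>
          Finset.mem_of_mem_erase (Finset.mem_of_mem_erase (hl3 u hu))
        have hus : ∀ u ∈ y :: l, u ∈ U := by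
          intro u hu
          rcases List.mem_cons.1 hu with rfl | hu
          · exact hyU
          · exact hlU u hu
        have hnd : (y :: l).Nodup := List.nodup_cons.2 ⟨hyl, hl2⟩
        have hxI : v (i + 1) ≠ x := by
          intro hc
          rw [← hc] at hxP
          exact hxP (h.v_mem hv (by omega))
        refine h.run hv [v (i + 1), x] (y :: l) {v (i + 1)} (by simp) hnd
          (fun u hu => hUm (hus u hu)) ?_ (by simpa using hxI) (by simpa using w2) ?_ ?_
          (by simpa using w1) ?_
        · match l, hl1, hl2, hyl, hus with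
          | [], _, _, _, _ => trivial
          | z :: l', hl1, hl2, hyl, hus =>
            refine ⟨?_, ?_⟩
            · rw [Finset.sdiff_singleton_eq_erase, Finset.erase_eq_of_notMem (hDy' z)]
              have := hD y hyU z (hus z (by simp)) (by
                rintro rfl
                simp at hyl)
              simp only [List.length_cons] at hl1
              omega
            · apply good_of_forall _ _ (k - 3) _ hl2
              · intro a ha b hb hab
                exact hpair k (by omega) a (hus a (List.mem_cons_of_mem _ ha)) b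
                  (hus b (List.mem_cons_of_mem _ hb)) hab
              · simp only [List.length_cons] at hl1 ⊢
                omega
        · intro z hz
          simp only [List.mem_cons, List.not_mem_nil, or_false] at hz
          rcases hz with rfl | rfl
          · right; exact ⟨w3, by simp⟩
          · left; exact ⟨⟨hxW, hxP⟩, by simp [hxy, hxl]⟩
        · simpa using hxyB
        · simp only [List.length_cons, List.length_nil]
          omega

omit hv in
theorem Lng.cyc_small {n : ℕ} (hn : 3 ≤ n) (hnp : n ≤ p)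
    (hW : p - 1 + (n + 1) / 2 ≤ W.card) : CycIn R W n := by
  have hlen := h.len
  have hthree := h.three
  obtain ⟨d, _⟩ : W.Nonempty := by
    rw [← Finset.card_pos]; have := h.lt; omega
  rcases Nat.eq_or_lt_of_le hn with hn3 | hn4
  · -- triangles
    have hS : P.toFinset ⊆ W := fun x hx => h.path.2.2 x (List.mem_toFinset.1 hx)
    have hcard : P.toFinset.card = p := by
      rw [List.toFinset_card_of_nodup h.path.2.1, hlen]
    obtain ⟨x, hxW, hxP⟩ : ∃ x ∈ W, x ∉ P.toFinset := by
      by_contra hcon
      push Not at hcon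
      have := Finset.card_le_card (show W ⊆ P.toFinset from hcon)
      have := h.lt
      omega
    rw [List.mem_toFinset] at hxP
    obtain ⟨v, hv⟩ := exists_fun d P
    refine h.run hv [] [x] ∅ (by simp) (by simp) (by simpa using ⟨hxW, hxP⟩) trivial
      (by simp) (by simp) (by simp) (by simp) ?_ ?_
    · intro a ha
      simp only [List.nil_append, List.head?_cons, Option.mem_def, Option.some.injEq] at ha
      subst ha
      exact h.adj0 hv hxW hxP
    · simp only [List.length_cons, List.length_nil]
      omega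
  · -- find an attachment
    have hS : P.toFinset ⊆ W := fun x hx => h.path.2.2 x (List.mem_toFinset.1 hx)
    have hcard : P.toFinset.card = p := by
      rw [List.toFinset_card_of_nodup h.path.2.1, hlen]
    obtain ⟨a, ha, b, hbW, hbS, hab⟩ := h.conn _ hS
      (by rw [← Finset.card_pos, hcard]; omega)
      (by intro hc; rw [hc] at hcard; have := h.lt; omega)
    rw [List.mem_toFinset] at ha hbS
    obtain ⟨i, hi, rfl⟩ := List.mem_iff_getElem.1 ha
    obtain ⟨v, hv⟩ := exists_fun d P
    obtain ⟨v', hvr⟩ := exists_fun d P.reverse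
    by_cases hi2 : i + 2 < p
    · exact h.cyc_small_aux hv hn hnp hW ⟨b, hbW, hbS, i, hi2, by
        rw [← hv i hi]; exact hab⟩
    · have hi3 : i ≠ p - 1 := by
        rintro rfl
        have := h.last hbW hbS (by omega)
        simp only [hlen] at this
        exact this hab
      have hi4 : i = p - 2 := by omega
      refine h.reverse.cyc_small_aux hvr hn hnp hW ⟨b, hbW, by simpa using hbS, 1, by omega, ?_⟩
      rw [← hvr 1 (by rw [List.length_reverse]; omega), List.getElem_reverse]
      have : P.length - 1 - 1 = i := by omega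
      simp only [this]
      exact hab

end Pool.Agent.Helper70.Cr
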