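import Pool.Agent.Helper70.Cr.Small

set_option autoImplicit false
set_option linter.unusedSectionVars false

open Classical

namespace Pool.Agent.Helper70.Cr

variable {V : Type*}
variable {R : SimpleGraph V} {W : Finset V} {P : List V} {p : ℕ}

theorem Lng.low_aux (h : Lng R W P p) {v : ℕ → V} (hv : ∀ i (hi : i < P.length), P[i] = v i) :
    (W.filter (R.Adj (v 0))).card + (W.filter (R.Adj (v (p - 1)))).card ≤ p - 1 := by
  have hlen := h.len
  have hthree := h.three
  set A0 := (Finset.range (p - 1)).filter (fun i => R.Adj (v 0) (v (i + 1))) with hA0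
  set A1 := (Finset.range (p - 1)).filter (fun i => R.Adj (v (p - 1)) (v i)) with hA1
  have h0 : W.filter (R.Adj (v 0)) ⊆ A0.image (fun i => v (i + 1)) := by
    intro z hz
    rw [Finset.mem_filter] at hz
    rw [Finset.mem_image]
    have hzP : z ∈ P := by
      by_contra hcon
      have := h.adj0 hv hz.1 hcon
      rw [SimpleGraph.compl_adj] at this
      exact this.2 hz.2
    obtain ⟨j, hj, rfl⟩ := List.mem_iff_getElem.1 hzP
    rw [hv j hj] at hz ⊢
    have hj0 : j ≠ 0 := by
      rintro rfl
      exact hz.2.ne rfl
    obtain ⟨k, rfl⟩ : ∃ k, j = k + 1 := ⟨j - 1, by omega⟩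
    refine ⟨k, ?_, rfl⟩
    rw [hA0, Finset.mem_filter, Finset.mem_range]
    exact ⟨by omega, hz.2⟩
  have h1 : W.filter (R.Adj (v (p - 1))) ⊆ A1.image v := by
    intro z hz
    rw [Finset.mem_filter] at hz
    rw [Finset.mem_image]
    have hzP : z ∈ P := by
      by_contra hcon
      have := h.adj1 hv hz.1 hcon
      rw [SimpleGraph.compl_adj] at this
      exact this.2 hz.2
    obtain ⟨j, hj, rfl⟩ := List.mem_iff_getElem.1 hzP
    rw [hv j hj] at hz ⊢
    have hj0 : j ≠ p - 1 := by
      rintro rfl
      exact hz.2.ne rfl
    refine ⟨j, ?_, rfl⟩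
    rw [hA1, Finset.mem_filter, Finset.mem_range]
    exact ⟨by omega, hz.2⟩
  have h2 := (Finset.card_le_card h0).trans Finset.card_image_le
  have h3 := (Finset.card_le_card h1).trans Finset.card_image_le
  have h4 : Disjoint A0 A1 := by
    rw [Finset.disjoint_left]
    intro i hi hi'
    rw [hA0, Finset.mem_filter, Finset.mem_range] at hi
    rw [hA1, Finset.mem_filter, Finset.mem_range] at hi'
    refine h.no_cross (i := i) (by omega) (by omega) (by omega) ?_ ?_
    · rw [hv, hv]; exact hi.2
    · rw [hv, hv]
      simp only [hlen]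
      exact hi'.2
  have h5 : A0 ∪ A1 ⊆ Finset.range (p - 1) :=
    Finset.union_subset (Finset.filter_subset _ _) (Finset.filter_subset _ _)
  have h6 := Finset.card_le_card h5
  rw [Finset.card_union_of_disjoint h4, Finset.card_range] at h6
  omega

/-- an end of small degree -/
theorem Lng.exists_low (h : Lng R W P p) :
    ∃ x l, Lng R W (x :: l) p ∧ 2 * (W.filter (R.Adj x)).card ≤ p - 1 := by
  have hlen := h.len
  have hthree := h.three
  obtain ⟨d, _⟩ : W.Nonempty := by
    rw [← Finset.card_pos]; have := h.lt; omega
  obtain ⟨v, hv⟩ := exists_fun d P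
  have key := h.low_aux hv
  by_cases hc : 2 * (W.filter (R.Adj (v 0))).card ≤ p - 1
  · match P, h, hv, hlen with
    | [], _, _, hlen => simp at hlen; omega
    | x :: l, h, hv, hlen =>
      refine ⟨x, l, h, ?_⟩
      have := hv 0 (by simp)
      simp only [List.getElem_cons_zero] at this
      rw [this]
      exact hc
  · have hc' : 2 * (W.filter (R.Adj (v (p - 1)))).card ≤ p - 1 := by omega
    have hr := h.reverse
    have hr0 : ∀ (h0 : 0 < P.reverse.length), P.reverse[0] = v (p - 1) := by
      intro h0
      rw [List.getElem_reverse]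
      rw [hv]
      simp only [hlen, Nat.sub_zero]
    have hrl : P.reverse.length = p := by simpa using hlen
    generalize P.reverse = Q at hr hr0 hrl
    match Q, hr, hr0, hrl with
    | [], _, _, hlen => simp at hlen; omega
    | x :: l, h, hv, hlen =>
      refine ⟨x, l, h, ?_⟩
      have := hv (by simp)
      simp only [List.getElem_cons_zero] at this
      rw [this]
      exact hc'

/-- propagation along a chain -/
theorem chain_all {Q : V → Prop} {B : V → V → Prop} (hstep : ∀ a b, B a b → Q a → Q b) :
    ∀ (l : List V) (y : V), (y :: l).IsChain B → Q y → ∀ z ∈ y :: l, Q z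
  | [], y, _, hy, z, hz => by
    simp only [List.mem_cons, List.not_mem_nil, or_false] at hz
    exact hz ▸ hy
  | a :: l, y, hc, hy, z, hz => by
    rw [List.isChain_cons_cons] at hc
    rcases List.mem_cons.1 hz with rfl | hz
    · exact hy
    · exact chain_all hstep l a hc.2 (hstep y a hc.1 hy) z hz

theorem Lng.conn_erase {x : V} {l : List V} (h : Lng R W (x :: l) p) :
    ConnOn R (W.erase x) := by
  have hthree := h.three
  have hlen := h.len
  obtain ⟨y, l, rfl⟩ : ∃ y l', l = y :: l' := by
    cases l with
    | nil => simp at hlen; omega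
    | cons y l' => exact ⟨y, l', rfl⟩
  have hxn : x ∉ y :: l := (List.nodup_cons.1 h.path.2.1).1
  have hlW : ∀ z ∈ y :: l, z ∈ W.erase x := by
    intro z hz
    refine Finset.mem_erase.2 ⟨?_, h.path.2.2 z (List.mem_cons_of_mem _ hz)⟩
    rintro rfl
    exact hxn hz
  have hch : (y :: l).IsChain R.Adj := (List.isChain_cons_cons.1 h.path.1).2
  have hch' : (y :: l).IsChain (fun a b => R.Adj a b ∧ a ∈ W.erase x ∧ b ∈ W.erase x) := by
    rw [List.isChain_iff_getElem] at hch ⊢
    intro i hi
    exact ⟨hch i hi, hlW _ (List.getElem_mem _), hlW _ (List.getElem_mem _)⟩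
  have hxa : ∀ a ∈ W, R.Adj a x → a ∈ y :: l := by
    intro a haW hax
    by_contra hcon
    have haP : a ∉ x :: y :: l := by
      intro hc
      rcases List.mem_cons.1 hc with rfl | hc
      · exact hax.ne rfl
      · exact hcon hc
    have := h.first haW haP (by simp)
    simp only [List.getElem_cons_zero] at this
    exact this hax.symm
  intro S hS hSne hSW
  by_contra hcon
  push Not at hcon
  -- hcon : no edges leaving S inside W.erase x
  have hSW' : S ⊆ W := hS.trans (Finset.erase_subset _ _)
  have hxS : x ∉ S := fun hc => by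
    have := hS hc
    simp at this
  by_cases hy : y ∈ S
  · have hall : ∀ z ∈ y :: l, z ∈ S := by
      refine chain_all (Q := fun z => z ∈ S) ?_ l y hch' hy
      intro a b hab ha
      by_contra hb
      exact hcon a ha b hab.2.2 hb hab.1
    have hT : ((W.erase x) \ S).Nonempty := by
      rw [Finset.sdiff_nonempty]
      intro hc
      exact hSW (Finset.Subset.antisymm hS hc)
    obtain ⟨a, ha, b, hbW, hb, hab⟩ := h.conn ((W.erase x) \ S)
      (Finset.sdiff_subset.trans (Finset.erase_subset _ _)) hT (by
        intro hc
        have hx : x ∈ W := h.path.2.2 x (by simp)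
        rw [← hc] at hx
        simp at hx)
    rw [Finset.mem_sdiff, Finset.mem_erase] at ha
    by_cases hbx : b = x
    · subst hbx
      exact ha.2 (hall a (hxa a ha.1.2 hab))
    · have hbS : b ∈ S := by
        by_contra hc
        exact hb (Finset.mem_sdiff.2 ⟨Finset.mem_erase.2 ⟨hbx, hbW⟩, hc⟩)
      exact hcon b hbS a (Finset.mem_erase.2 ha.1) ha.2 hab.symm
  · have hall : ∀ z ∈ y :: l, z ∉ S := by
      refine chain_all (Q := fun z => z ∉ S) ?_ l y hch' hy
      intro a b hab ha hb
      exact hcon b hb a hab.2.1 ha hab.1.symm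
    obtain ⟨a, ha, b, hbW, hb, hab⟩ := h.conn S hSW' hSne (by
        intro hc
        have hx : x ∈ W := h.path.2.2 x (by simp)
        rw [← hc] at hx
        exact hxS hx)
    by_cases hbx : b = x
    · subst hbx
      exact hall a (hxa a (hSW' ha) hab) ha
    · exact hcon a ha b (Finset.mem_erase.2 ⟨hbx, hbW⟩) hb hab

/-- inserting a vertex into a cycle of the complement -/
theorem cyc_insert {x : V} {m : ℕ} (hm : 0 < m) (hxW : x ∈ W) (hc : CycIn R (W.erase x) m)
    (hx : 2 * (W.filter (R.Adj x)).card < m) : CycIn R W (m + 1) := by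
  obtain ⟨l, hl, hnd, hlW, hch, hcl⟩ := hc
  obtain ⟨v, hv⟩ := exists_fun x l
  set T := (Finset.range m).filter (fun i => R.Adj x (v i)) with hT
  have hTc : T.card ≤ (W.filter (R.Adj x)).card := by
    apply Finset.card_le_card_of_injOn v
    · intro i hi
      rw [Finset.mem_coe, hT, Finset.mem_filter, Finset.mem_range] at hi
      rw [Finset.mem_coe, Finset.mem_filter]
      refine ⟨?_, hi.2⟩
      rw [← hv i (by omega)]
      exact Finset.mem_of_mem_erase (hlW _ (List.getElem_mem _))
    · intro i hi j hj hij
      rw [Finset.mem_coe, hT, Finset.mem_filter, Finset.mem_range] at hi hj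
      rw [← hv i (by omega), ← hv j (by omega)] at hij
      exact (List.Nodup.getElem_inj_iff hnd).1 hij
  have hex : ∃ i < m, i ∉ T ∧ (i + 1) % m ∉ T := by
    by_contra hcon
    push Not at hcon
    have h1 : Finset.range m \ T ⊆ (Finset.range m \ T) := subset_rfl
    have h2 : ((Finset.range m \ T).image (fun i => (i + 1) % m)) ⊆ T := by
      intro j hj
      rw [Finset.mem_image] at hj
      obtain ⟨i, hi, rfl⟩ := hj
      rw [Finset.mem_sdiff, Finset.mem_range] at hi
      exact hcon i hi.1 hi.2
    have h3 : ((Finset.range m \ T).image (fun i => (i + 1) % m)).card =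
        (Finset.range m \ T).card := by
      apply Finset.card_image_of_injOn
      intro i hi j hj hij
      rw [Finset.mem_coe, Finset.mem_sdiff, Finset.mem_range] at hi hj
      simp only at hij
      have e1 : (i + 1) % m = if i + 1 = m then 0 else i + 1 := by
        split_ifs with h
        · rw [h, Nat.mod_self]
        · exact Nat.mod_eq_of_lt (by omega)
      have e2 : (j + 1) % m = if j + 1 = m then 0 else j + 1 := by
        split_ifs with h
        · rw [h, Nat.mod_self]
        · exact Nat.mod_eq_of_lt (by omega)
      rw [e1, e2] at hij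
      split_ifs at hij <;> omega
    have h4 := Finset.card_le_card h2
    have h5 : (Finset.range m \ T).card = m - T.card := by
      rw [Finset.card_sdiff_of_subset (Finset.filter_subset _ _), Finset.card_range]
    omega
  obtain ⟨i, him, hi1, hi2⟩ := hex
  have hxl : x ∉ l := fun hc => by
    have := hlW x hc
    simp at this
  have hadj : ∀ j < m, j ∉ T → Rᶜ.Adj x (v j) := by
    intro j hj hjT
    rw [SimpleGraph.compl_adj]
    refine ⟨?_, ?_⟩
    · intro h
      apply hxl
      rw [h, ← hv j (by omega)]
      exact List.getElem_mem _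
    · intro h
      exact hjT (Finset.mem_filter.2 ⟨Finset.mem_range.2 hj, h⟩)
  have hlW' : ∀ z ∈ l, z ∈ W := fun z hz => Finset.mem_of_mem_erase (hlW z hz)
  have hlne : l ≠ [] := by
    rintro rfl
    simp at hl
    omega
  by_cases hlast : i + 1 = m
  · rw [hlast, Nat.mod_self] at hi2
    refine ⟨x :: l, by simp [hl], List.nodup_cons.2 ⟨hxl, hnd⟩, ?_, ?_, ?_⟩
    · intro z hz
      rcases List.mem_cons.1 hz with rfl | hz
      · exact hxW
      · exact hlW' z hz
    · rw [List.isChain_cons]
      refine ⟨?_, hch⟩
      intro y hy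
      rw [← List.drop_zero (l := l)] at hy
      rw [head_drop (by omega) hy, hv]
      exact hadj 0 hm hi2
    · intro a ha b hb
      simp only [List.head?_cons, Option.mem_def, Option.some.injEq] at ha
      subst ha
      obtain ⟨y, l', rfl⟩ := List.exists_cons_of_ne_nil hlne
      rw [List.getLast?_cons_cons, ← List.drop_zero (l := y :: l')] at hb
      rw [getLast_drop (by simp) hb, hv]
      have : (y :: l').length - 1 = i := by omega
      rw [this]
      exact (hadj i him hi1).symm
  · have hi3 : i + 1 < m := by omega
    rw [Nat.mod_eq_of_lt hi3] at hi2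
    have key := insert_one (R := Rᶜ) (W := W) (A := l.take (i + 1)) (C := l.drop (i + 1)) (u := x)
      (by rw [List.take_append_drop]; exact ⟨hch, hnd, hlW'⟩)
      (by rw [List.take_append_drop]; exact hxl) hxW
      (fun y hy => by
        rw [getLast_take (by omega) hy, hv]
        exact (hadj i him hi1).symm)
      (fun y hy => by
        rw [head_drop (by omega) hy, hv]
        exact hadj (i + 1) hi3 hi2)
    refine ⟨_, ?_, key.2.1, key.2.2, key.1, ?_⟩
    · simp only [List.length_append, List.length_take, List.length_cons, List.length_drop, hl]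
      omega
    · have hA : l.take (i + 1) ≠ [] := by
        intro h0
        have := congrArg List.length h0
        simp only [List.length_take, List.length_nil] at this
        omega
      have hC : l.drop (i + 1) ≠ [] := by
        intro h0
        have := congrArg List.length h0
        simp only [List.length_drop, List.length_nil] at this
        omega
      intro a ha b hb
      rw [List.head?_append_of_ne_nil _ hA] at ha
      rw [List.getLast?_append_of_ne_nil _ (by simp)] at hb
      obtain ⟨y, l', hyl⟩ := List.exists_cons_of_ne_nil hC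
      rw [hyl, List.getLast?_cons_cons, ← hyl] at hb
      apply hcl
      · rw [← List.take_append_drop (i + 1) l, List.head?_append_of_ne_nil _ hA]
        exact ha
      · rw [← List.take_append_drop (i + 1) l, List.getLast?_append_of_ne_nil _ hC]
        exact hb

/-- **Upper bound.** -/
theorem upper : ∀ n, 3 ≤ n → ∀ (W : Finset V) (q : ℕ), ConnOn R W → Bdd R W q →
    n - 1 + (q + 1) / 2 ≤ W.card → q - 1 + (n + 1) / 2 ≤ W.card → CycIn R W n := by
  intro n hn
  induction n, hn using Nat.le_induction with
  | base =>
    intro W q hconn hb h1 h2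
    have hq : 1 ≤ q := by
      obtain ⟨x, hx⟩ : W.Nonempty := by rw [← Finset.card_pos]; omega
      have := hb [x] ⟨by simp, by simp, by simpa using hx⟩
      simpa using this
    obtain ⟨P, p, hpq, hP⟩ := exists_lng hconn hb (by omega) (by omega)
    exact hP.cyc_small (by omega) hP.three (by omega)
  | succ n hn ih =>
    intro W q hconn hb h1 h2
    have hq : 1 ≤ q := by
      obtain ⟨x, hx⟩ : W.Nonempty := by rw [← Finset.card_pos]; omega
      have := hb [x] ⟨by simp, by simp, by simpa using hx⟩
      simpa using this
    obtain ⟨P, p, hpq, hP⟩ := exists_lng hconn hb (by omega) (by omega)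
    by_cases hnp : n + 1 ≤ p
    · exact hP.cyc_small (by omega) hnp (by omega)
    · obtain ⟨x, l, hl, hdeg⟩ := hP.exists_low
      have hthree := hl.three
      have hxW : x ∈ W := hl.path.2.2 x (by simp)
      have hcard : (W.erase x).card = W.card - 1 := Finset.card_erase_of_mem hxW
      refine cyc_insert (by omega) hxW (ih (W.erase x) p hl.conn_erase ?_ ?_ ?_) (by omega)
      · intro l' hl'
        exact hl.bdd l' ⟨hl'.1, hl'.2.1, fun z hz => Finset.mem_of_mem_erase (hl'.2.2 z hz)⟩
      · omega
      · omega

end Pool.Agent.Helper70.Cr
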